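import Pool.Agent.Helper119.HC.F45

open Finset

namespace Pool.Agent.Helper119.HC

abbrev K15 := ZMod 5 × ZMod 3

def M15 (y : ZMod 5) (a : ZMod 3) : ℤ :=
  (![![-7, 0, 7], ![-6, 1, 5], ![3, 2, -5], ![6, -2, -4], ![4, -1, -3]] :
    Fin 5 → Fin 3 → ℤ) y a

def E15 (y : ZMod 5) (a : ZMod 3) : ℕ := (M15 y a + 7).toNat

theorem E15_lt : ∀ (y : ZMod 5) (a : ZMod 3), E15 y a < 15 := by decide +kernel

theorem E15_cast : ∀ (y : ZMod 5) (a : ZMod 3), ((E15 y a : ℕ) : ℤ) = M15 y a + 7 := by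
  decide +kernel

theorem E15_inj : ∀ (y : ZMod 5) (a : ZMod 3) (y' : ZMod 5) (a' : ZMod 3),
    E15 y a = E15 y' a' → y = y' ∧ a = a' := by decide +kernel

theorem M15_a : ∀ (y : ZMod 5), M15 y 0 + M15 y 1 + M15 y 2 = 0 := by decide +kernel
theorem M15_y : ∀ (a : ZMod 3), M15 0 a + M15 1 a + M15 2 a + M15 3 a + M15 4 a = 0 := by
  decide +kernel

section
variable {t : ℕ}

abbrev Gt (t : ℕ) := ZMod (2 * t + 1) × K15

def fm (z : ZMod (2 * t + 1)) (y : ZMod 5) (a : ZMod 3) : ℤ :=
  2 * ((2 * (t : ℤ) + 1) * M15 y a + RR z y a - t)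

theorem fm_a (z : ZMod (2 * t + 1)) (y : ZMod 5) (a : ZMod 3) :
    fm z y a + fm z y (a + 1) + fm z y (a + 2) = 0 := by
  rw [three_sum (fm z y) a]
  unfold fm
  have h1 := M15_a y
  have h2 : ((RR z y 0 : ℕ) : ℤ) + RR z y 1 + RR z y 2 = 3 * t := by exact_mod_cast RR_a z y
  have : (2 * (t : ℤ) + 1) * M15 y 0 + (2 * (t : ℤ) + 1) * M15 y 1 +
      (2 * (t : ℤ) + 1) * M15 y 2 = 0 := by
    rw [← mul_add, ← mul_add, h1, mul_zero]
  linarith

theorem fm_y (z : ZMod (2 * t + 1)) (y : ZMod 5) (a : ZMod 3) : ∑ y', fm z (y + y') a = 0 := by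
  rw [show (∑ y', fm z (y + y') a) = ∑ y', fm z y' a from
    Equiv.sum_comp (Equiv.addLeft y) (fun y' => fm z y' a), sum5]
  unfold fm
  have h1 := M15_y a
  have h2 : ((RR z 0 a : ℕ) : ℤ) + RR z 1 a + RR z 2 a + RR z 3 a + RR z 4 a = 5 * t := by
    exact_mod_cast RR_y z a
  have : (2 * (t : ℤ) + 1) * M15 0 a + (2 * (t : ℤ) + 1) * M15 1 a + (2 * (t : ℤ) + 1) * M15 2 a +
    (2 * (t : ℤ) + 1) * M15 3 a + (2 * (t : ℤ) + 1) * M15 4 a = 0 := by
    rw [← mul_add, ← mul_add, ← mul_add, ← mul_add, h1, mul_zero]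
  linarith

def cm (v : Gt t) : ℤ := fm v.1 v.2.1 v.2.2

def lm (v : Gt t) : ℕ := (2 * t + 1) * E15 v.2.1 v.2.2 + RR v.1 v.2.1 v.2.2

theorem lm_lt (v : Gt t) : lm v < 15 * (2 * t + 1) := by
  have h1 := E15_lt v.2.1 v.2.2
  have h2 := RR_lt v.1 v.2.1 v.2.2
  unfold lm
  have h3 : E15 v.2.1 v.2.2 ≤ 14 := by omega
  have h4 : (2 * t + 1) * E15 v.2.1 v.2.2 ≤ (2 * t + 1) * 14 := Nat.mul_le_mul_left _ h3
  omega

theorem lm_inj : Function.Injective (lm : Gt t → ℕ) := by
  rintro ⟨z, y, a⟩ ⟨z', y', a'⟩ h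
  unfold lm at h
  simp only at h
  have h2 := RR_lt z y a
  have h2' := RR_lt z' y' a'
  have hE : E15 y a = E15 y' a' := by
    have e1 : ((2 * t + 1) * E15 y a + RR z y a) / (2 * t + 1) = E15 y a := by
      rw [Nat.mul_add_div (by omega), Nat.div_eq_of_lt h2, add_zero]
    have e2 : ((2 * t + 1) * E15 y' a' + RR z' y' a') / (2 * t + 1) = E15 y' a' := by
      rw [Nat.mul_add_div (by omega), Nat.div_eq_of_lt h2', add_zero]
    rw [← e1, ← e2, h]
  obtain ⟨hy, ha⟩ := E15_inj y a y' a' hE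
  subst hy ha
  have hR : RR z y a = RR z' y a := by omega
  rw [RR_inj z z' y a hR]

theorem two_lm (v : Gt t) :
    2 * (lm v : ℤ) = cm v + ((15 * (2 * t + 1) : ℕ) : ℤ) - 1 := by
  unfold lm cm fm
  have h := E15_cast v.2.1 v.2.2
  push_cast
  rw [h]
  ring

/-- the vector `(0; 0; 1)` -/
def hm (t : ℕ) : Gt t := (0, (0, 1))

theorem hm_3 : hm t + hm t + hm t = 0 := by
  refine Prod.ext (by simp [hm]) ?_
  show ((0, 1) : K15) + (0, 1) + (0, 1) = 0
  decide

theorem hm_ne : hm t ≠ 0 := by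
  intro h
  have : ((0, 1) : K15) = 0 := congrArg Prod.snd h
  exact absurd this (by decide)

theorem hm_ne2 : hm t + hm t ≠ 0 := by
  intro h
  have : ((0, 1) : K15) + (0, 1) = 0 := congrArg Prod.snd h
  exact absurd this (by decide)

theorem neg_hm : -hm t = hm t + hm t := by
  rw [neg_eq_iff_add_eq_zero, ← add_assoc]
  exact hm_3

theorem cm_sum (w : Gt t) : cm w + cm (w + hm t) + cm (w + hm t + hm t) = 0 := by
  obtain ⟨z, y, a⟩ := w
  have e1 : ((z, (y, a)) : Gt t) + hm t = (z, (y, a + 1)) := by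
    show (z + 0, (y + 0, a + 1)) = _
    rw [add_zero, add_zero]
  have e2 : ((z, (y, a)) : Gt t) + hm t + hm t = (z, (y, a + 2)) := by
    rw [e1]
    show (z + 0, (y + 0, a + 1 + 1)) = _
    rw [add_zero, add_zero, add_assoc]
    rfl
  rw [e2, e1]
  exact fm_a z y a

theorem addm (g : Gt t) : g + hm t + hm t + hm t = g := by
  rw [add_assoc, add_assoc, ← add_assoc (hm t), hm_3, add_zero]

def Om (u : Gt t) : Finset (Gt t) :=
  {u, u + hm t, u + hm t + hm t, -u, -u + hm t, -u + hm t + hm t}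

theorem om_closed (u : Gt t) : (∀ g ∈ Om u, g + hm t ∈ Om u) ∧ ∀ g ∈ Om u, -g ∈ Om u := by
  constructor
  · intro g hg
    simp only [Om, mem_insert, mem_singleton] at hg ⊢
    rcases hg with rfl | rfl | rfl | rfl | rfl | rfl
    · tauto
    · tauto
    · left; exact addm u
    · tauto
    · tauto
    · right; right; right; left; exact addm _
  · intro g hg
    have n1 : ∀ x : Gt t, -(x + hm t) = -x + hm t + hm t := by
      intro x; rw [neg_add, neg_hm, ← add_assoc]
    have n2 : ∀ x : Gt t, -(x + hm t + hm t) = -x + hm t := by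
      intro x; rw [n1, n1, addm]
    simp only [Om, mem_insert, mem_singleton] at hg ⊢
    rcases hg with rfl | rfl | rfl | rfl | rfl | rfl
    · tauto
    · right; right; right; right; right; exact n1 u
    · right; right; right; right; left; exact n2 u
    · left; rw [neg_neg]
    · right; right; left; rw [n1, neg_neg]
    · right; left; rw [n2, neg_neg]

theorem zne {u : ZMod (2 * t + 1)} (hu : u ≠ 0) : u ≠ -u := by
  intro h1
  apply hu
  have h3 : u + u = 0 := by nth_rewrite 2 [h1]; rw [add_neg_cancel]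
  have h4 : (2 : ZMod (2 * t + 1)) * u = 0 := (two_mul u).trans h3
  have hunit : IsUnit (2 : ZMod (2 * t + 1)) := by
    have : IsUnit ((2 : ℕ) : ZMod (2 * t + 1)) := by
      rw [ZMod.isUnit_iff_coprime]
      rw [Nat.coprime_two_left]
      exact ⟨t, rfl⟩
    exact_mod_cast this
  exact (hunit.mul_right_eq_zero).1 h4

theorem fm1 (x : Gt t) : (x + hm t).1 = x.1 := by
  show x.1 + 0 = x.1
  rw [add_zero]

theorem om_card {u : Gt t} (hu : u.1 ≠ 0) : (Om u).card = 6 := by
  have hne := zne hu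
  have d1 : ∀ x : Gt t, x ≠ x + hm t := fun x h => hm_ne (by simpa using h.symm)
  have d2 : ∀ x : Gt t, x ≠ x + hm t + hm t := fun x h => hm_ne2 (t := t) (by
    have : x + (hm t + hm t) = x + 0 := by rw [add_zero, ← add_assoc]; exact h.symm
    exact add_left_cancel this)
  have d3 : ∀ x y : Gt t, x.1 = u.1 → y.1 = -u.1 → x ≠ y := fun x y hx hy h =>
    hne ((hx.symm.trans (congrArg Prod.fst h)).trans hy)
  have nf : (-u).1 = -u.1 := rfl
  unfold Om
  rw [card_insert_of_notMem, card_insert_of_notMem, card_insert_of_notMem, card_insert_of_notMem,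
    card_pair (d1 _)]
  · simp only [mem_insert, mem_singleton, not_or]
    exact ⟨d1 _, d2 _⟩
  · simp only [mem_insert, mem_singleton, not_or]
    refine ⟨d3 _ _ ?_ nf, d3 _ _ ?_ ?_, d3 _ _ ?_ ?_⟩ <;> simp only [fm1, nf]
  · simp only [mem_insert, mem_singleton, not_or]
    refine ⟨d1 _, d3 _ _ ?_ nf, d3 _ _ ?_ ?_, d3 _ _ ?_ ?_⟩ <;> simp only [fm1, nf]
  · simp only [mem_insert, mem_singleton, not_or]
    refine ⟨d1 _, d2 _, d3 _ _ rfl nf, d3 _ _ rfl ?_, d3 _ _ rfl ?_⟩ <;> simp only [fm1, nf]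

/-- invariance -/
def Invm (P : Finset (Gt t)) : Prop :=
  (∀ g ∈ P, g + hm t ∈ P) ∧ (∀ g ∈ P, -g ∈ P) ∧ ∀ g ∈ P, g.1 ≠ 0

theorem chainm {V : Finset (Gt t)} (hV : Invm V) (N : ℕ) (hN : 6 * N ≤ V.card) :
    ∃ P : Finset (Gt t), P ⊆ V ∧ Invm P ∧ P.card = 6 * N := by
  induction N with
  | zero => exact ⟨∅, by simp, ⟨by simp, by simp, by simp⟩, by simp⟩
  | succ N ih =>
    obtain ⟨P, hPV, hP, hc⟩ := ih (by omega)
    obtain ⟨u, huV, huP⟩ : ∃ u ∈ V, u ∉ P := by
      by_contra hcon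
      push Not at hcon
      have := card_le_card (show V ⊆ P from hcon)
      omega
    have hu := hV.2.2 u huV
    obtain ⟨c1, c2⟩ := om_closed u
    have hOV : Om u ⊆ V := by
      intro g hg
      simp only [Om, mem_insert, mem_singleton] at hg
      have v1 := hV.1
      have v2 := hV.2.1
      rcases hg with rfl | rfl | rfl | rfl | rfl | rfl
      · exact huV
      · exact v1 _ huV
      · exact v1 _ (v1 _ huV)
      · exact v2 _ huV
      · exact v1 _ (v2 _ huV)
      · exact v1 _ (v1 _ (v2 _ huV))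
    refine ⟨P ∪ Om u, union_subset hPV hOV, ⟨?_, ?_, ?_⟩, ?_⟩
    · intro g hg
      rw [mem_union] at hg ⊢
      rcases hg with h | h
      · exact Or.inl (hP.1 g h)
      · exact Or.inr (c1 g h)
    · intro g hg
      rw [mem_union] at hg ⊢
      rcases hg with h | h
      · exact Or.inl (hP.2.1 g h)
      · exact Or.inr (c2 g h)
    · intro g hg
      exact hV.2.2 g (union_subset hPV hOV hg)
    · have hd : Disjoint P (Om u) := by
        rw [disjoint_right]
        intro g hg hgP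
        apply huP
        have n1 : ∀ x : Gt t, x ∈ P → x + hm t ∈ P := hP.1
        simp only [Om, mem_insert, mem_singleton] at hg
        have key : ∀ x : Gt t, (x ∈ P ∨ x + hm t ∈ P ∨ x + hm t + hm t ∈ P) → x ∈ P := by
          intro x hx
          rcases hx with h | h | h
          · exact h
          · have := n1 _ (n1 _ h); rwa [addm] at this
          · have := n1 _ h; rwa [addm] at this
        rcases hg with rfl | rfl | rfl | rfl | rfl | rfl
        · exact hgP
        · exact key u (Or.inr (Or.inl hgP))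
        · exact key u (Or.inr (Or.inr hgP))
        · have := hP.2.1 _ hgP; rwa [neg_neg] at this
        · have := hP.2.1 _ (key (-u) (Or.inr (Or.inl hgP))); rwa [neg_neg] at this
        · have := hP.2.1 _ (key (-u) (Or.inr (Or.inr hgP))); rwa [neg_neg] at this
      rw [card_union_of_disjoint hd, hc, om_card hu]
      ring

/-- the part in `z = 0`: `y ≠ 0`, `a ≠ 0` -/
def C8 (t : ℕ) : Finset (Gt t) :=
  ({0} : Finset (ZMod (2 * t + 1))) ×ˢ (({0}ᶜ : Finset (ZMod 5)) ×ˢ ({1, 2} : Finset (ZMod 3)))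

theorem lines_m (v : Gt t) (Z : Finset (ZMod (2 * t + 1))) (A : Finset (ZMod 3)) :
    ∑ g ∈ Z ×ˢ ((univ : Finset (ZMod 5)) ×ˢ A), cm (v + g) = 0 := by
  rw [sum_product]
  apply sum_eq_zero
  intro z' _
  rw [sum_product_right]
  apply sum_eq_zero
  intro a' _
  exact fm_y (v.1 + z') v.2.1 (v.2.2 + a')

theorem C8_sum (v : Gt t) : ∑ g ∈ C8 t, cm (v + g) = cm v := by
  obtain ⟨z, y, a⟩ := v
  unfold C8
  rw [sum_product, sum_singleton, sum_product]
  have e : ∀ y' : ZMod 5, ∑ a' ∈ ({1, 2} : Finset (ZMod 3)),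
      cm (((z, (y, a)) : Gt t) + (0, (y', a'))) = - fm z (y + y') a := by
    intro y'
    rw [sum_pair (by decide)]
    show fm (z + 0) (y + y') (a + 1) + fm (z + 0) (y + y') (a + 2) = _
    rw [add_zero]
    have := fm_a z (y + y') a
    linarith
  rw [sum_congr rfl (fun y' _ => e y')]
  have h := sum_compl_add_sum (s := ({0} : Finset (ZMod 5))) (f := fun y' => - fm z (y + y') a)
  rw [sum_singleton, sum_neg_distrib (f := fun y' => fm z (y + y') a) (s := univ), fm_y,
    add_zero] at h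
  show _ = fm z y a
  linarith

/-- general lemma: `Z` symmetric set of first coordinates for the lines of length 5, `Z'` the
rest -/
theorem main15 (Z Z' : Finset (ZMod (2 * t + 1))) (A : Finset (ZMod 3)) (N : ℕ)
    (hZn : ∀ z ∈ Z, -z ∈ Z) (hZ0 : (0 : ZMod (2 * t + 1)) ∉ Z)
    (hZn' : ∀ z ∈ Z', -z ∈ Z') (hZ0' : (0 : ZMod (2 * t + 1)) ∉ Z') (hZZ : Disjoint Z Z')
    (hA : ∀ a ∈ A, -a ∈ A) (hN : 6 * N ≤ 15 * Z'.card) :
    Handicap (15 * (2 * t + 1)) (8 + 5 * (Z.card * A.card) + 6 * N) 1 := by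
  let L : Finset (Gt t) := Z ×ˢ ((univ : Finset (ZMod 5)) ×ˢ A)
  let V : Finset (Gt t) := Z' ×ˢ (univ : Finset K15)
  have hL : ∀ g : Gt t, g ∈ L ↔ g.1 ∈ Z ∧ g.2.2 ∈ A := by
    intro g
    simp only [L, mem_product, mem_univ, true_and]
  have hV : ∀ g : Gt t, g ∈ V ↔ g.1 ∈ Z' := by
    intro g
    simp only [V, mem_product, mem_univ, and_true]
  have hC : ∀ g : Gt t, g ∈ C8 t → g.1 = 0 := by
    intro g hg
    unfold C8 at hg
    rw [mem_product, mem_singleton] at hg
    exact hg.1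
  have hVc : V.card = 15 * Z'.card := by
    simp only [V]
    rw [card_product, card_univ]
    have : Fintype.card K15 = 15 := by simp [K15, ZMod.card]
    rw [this, mul_comm]
  have hIV : Invm V := by
    refine ⟨?_, ?_, ?_⟩
    · intro g hg
      rw [hV] at hg ⊢
      rw [fm1]; exact hg
    · intro g hg
      rw [hV] at hg ⊢
      exact hZn' _ hg
    · intro g hg h0
      rw [hV] at hg
      exact hZ0' (h0 ▸ hg)
  obtain ⟨P, hPV, hP, hc⟩ := chainm hIV N (by rw [hVc]; exact hN)
  have hcard : Fintype.card (Gt t) = 15 * (2 * t + 1) := by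
    simp [Gt, K15, ZMod.card]
    ring
  have hd1 : Disjoint (C8 t) L := by
    rw [disjoint_left]
    intro g hg hg'
    rw [hL] at hg'
    exact hZ0 (hC g hg ▸ hg'.1)
  have hd2 : Disjoint (C8 t ∪ L) P := by
    rw [disjoint_left]
    intro g hg hg'
    have h1 := hPV hg'
    rw [hV] at h1
    rw [mem_union] at hg
    rcases hg with h | h
    · exact hZ0' (hC g h ▸ h1)
    · rw [hL] at h
      exact (disjoint_left.1 hZZ) h.1 h1
  have c8 : (C8 t).card = 8 := by
    unfold C8
    rw [card_product, card_product, card_compl, card_singleton, card_singleton, ZMod.card]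
    rfl
  have cL : L.card = 5 * (Z.card * A.card) := by
    simp only [L]
    rw [card_product, card_product, card_univ, ZMod.card]
    ring
  refine of_conn_gen hcard lm cm lm_lt lm_inj two_lm _ _ ((C8 t ∪ L) ∪ P) ?_ ?_ ?_ ?_
  · rw [card_union_of_disjoint hd2, card_union_of_disjoint hd1, c8, cL, hc]
  · rw [mem_union, mem_union, not_or, not_or]
    refine ⟨⟨?_, ?_⟩, ?_⟩
    · intro h
      unfold C8 at h
      rw [mem_product, mem_product] at h
      have h3 : (0 : ZMod 3) ∈ ({1, 2} : Finset (ZMod 3)) := h.2.2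
      exact absurd h3 (by decide)
    · intro h
      rw [hL] at h
      exact hZ0 h.1
    · intro h
      exact hP.2.2 _ h rfl
  · intro g hg
    rw [mem_union, mem_union] at hg ⊢
    rcases hg with (h | h) | h
    · left; left
      unfold C8 at h ⊢
      rw [mem_product, mem_product, mem_singleton, mem_compl, mem_singleton] at h ⊢
      refine ⟨by show -g.1 = 0; rw [h.1, neg_zero], by show ¬ -g.2.1 = 0; exact neg_ne_zero.2 h.2.1,
        ?_⟩
      have : ∀ a ∈ ({1, 2} : Finset (ZMod 3)), -a ∈ ({1, 2} : Finset (ZMod 3)) := by decide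
      exact this _ h.2.2
    · left; right
      rw [hL] at h ⊢
      exact ⟨hZn _ h.1, hA _ h.2⟩
    · exact Or.inr (hP.2.1 g h)
  · intro v
    rw [sum_union hd2, sum_union hd1, C8_sum, lines_m, add_zero]
    have s1 : ∀ F : Gt t → ℤ, ∑ g ∈ P, F (g + hm t) = ∑ g ∈ P, F g := by
      intro F
      apply Finset.sum_bij (fun g _ => g + hm t)
      · intro g hg; exact hP.1 g hg
      · intro a _ b _ h; exact add_right_cancel h
      · intro b hb
        exact ⟨b + hm t + hm t, hP.1 _ (hP.1 _ hb), addm b⟩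
      · intro g _; rfl
    have h0 : ∑ g ∈ P, cm (v + g) = 0 := by
      have a1 := s1 (fun g => cm (v + g))
      have a2 := s1 (fun g => cm (v + (g + hm t)))
      have a3 : ∑ g ∈ P, (cm (v + g) + cm (v + (g + hm t)) +
          cm (v + (g + hm t + hm t))) = 0 := by
        apply Finset.sum_eq_zero
        intro g _
        have := cm_sum (v + g)
        rw [add_assoc v g (hm t), add_assoc v (g + hm t) (hm t)] at this
        exact this
      rw [Finset.sum_add_distrib, Finset.sum_add_distrib] at a3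
      linarith
    rw [h0, add_zero]
    push_cast
    ring

theorem main15_0 (t N : ℕ) (hN : 6 * N ≤ 30 * t) :
    Handicap (15 * (2 * t + 1)) (8 + 6 * N) 1 := by
  have := main15 (t := t) ∅ {0}ᶜ ∅ N (by simp) (by simp)
    (by intro z hz; rw [mem_compl, mem_singleton] at hz ⊢; exact neg_ne_zero.2 hz) (by simp)
    (by simp) (by simp) (by rw [card_compl, card_singleton, ZMod.card]; omega)
  simpa using this

theorem card_pm (ht : 1 ≤ t) : ({1, -1} : Finset (ZMod (2 * t + 1))).card = 2 ∧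
    ({0, 1, -1} : Finset (ZMod (2 * t + 1))).card = 3 := by
  have : Fact (1 < 2 * t + 1) := ⟨by omega⟩
  have h1 : (1 : ZMod (2 * t + 1)) ≠ 0 := one_ne_zero
  have h2 := zne h1
  constructor
  · exact card_pair h2
  · rw [card_insert_of_notMem, card_pair h2]
    simp only [mem_insert, mem_singleton, not_or]
    exact ⟨h1.symm, (neg_ne_zero.2 h1).symm⟩

theorem main15_A (A : Finset (ZMod 3)) (t N : ℕ) (ht : 1 ≤ t) (hA : ∀ a ∈ A, -a ∈ A)
    (hN : 6 * N + 30 ≤ 30 * t) :
    Handicap (15 * (2 * t + 1)) (8 + 5 * (2 * A.card) + 6 * N) 1 := by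
  obtain ⟨p2, p3⟩ := card_pm ht
  have : Fact (1 < 2 * t + 1) := ⟨by omega⟩
  have h1 : (1 : ZMod (2 * t + 1)) ≠ 0 := one_ne_zero
  have := main15 (t := t) {1, -1} {0, 1, -1}ᶜ A N
    (by
      intro z hz
      simp only [mem_insert, mem_singleton] at hz ⊢
      rcases hz with rfl | rfl
      · right; rfl
      · left; rw [neg_neg])
    (by
      simp only [mem_insert, mem_singleton, not_or]
      exact ⟨h1.symm, (neg_ne_zero.2 h1).symm⟩)
    (by
      intro z hz
      simp only [mem_compl, mem_insert, mem_singleton, not_or] at hz ⊢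
      refine ⟨neg_ne_zero.2 hz.1, ?_, ?_⟩
      · intro h; exact hz.2.2 (by rw [← h, neg_neg])
      · intro h; exact hz.2.1 (neg_injective h))
    (by simp)
    (by
      rw [disjoint_left]
      intro z hz hz'
      simp only [mem_compl, mem_insert, mem_singleton, not_or] at hz hz'
      rcases hz with h | h
      · exact hz'.2.1 h
      · exact hz'.2.2 h)
    hA (by rw [card_compl, p3, ZMod.card]; omega)
  rw [p2] at this
  exact this

end

end Pool.Agent.Helper119.HC
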