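import Pool.Agent.Helper119.HC.Tern

open Finset

namespace Pool.Agent.Helper119.HC

abbrev K45 := ZMod 5 × (ZMod 3 × ZMod 3)

def F0 (y : ZMod 5) (a : ZMod 3) : ℤ :=
  (![![-18, 6, 12], ![16, -18, 2], ![16, -18, 2], ![-9, 21, -12], ![-5, 9, -4]] :
    Fin 5 → Fin 3 → ℤ) y a

def F1 (y : ZMod 5) (a : ZMod 3) : ℤ :=
  (![![-4, 0, 4], ![1, 2, -3], ![3, -1, -2], ![0, 1, -1], ![0, -2, 2]] :
    Fin 5 → Fin 3 → ℤ) y a

def E45 (y : ZMod 5) (a b : ZMod 3) : ℕ := (F0 y a + F1 y b + 22).toNat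

theorem E45_lt : ∀ (y : ZMod 5) (a b : ZMod 3), E45 y a b < 45 := by decide +kernel

theorem E45_cast : ∀ (y : ZMod 5) (a b : ZMod 3), ((E45 y a b : ℕ) : ℤ) = F0 y a + F1 y b + 22 := by
  decide +kernel

theorem E45_inj : ∀ (y : ZMod 5) (a b : ZMod 3) (y' : ZMod 5) (a' b' : ZMod 3),
    E45 y a b = E45 y' a' b' → y = y' ∧ a = a' ∧ b = b' := by decide +kernel

theorem F0_a : ∀ (y : ZMod 5), F0 y 0 + F0 y 1 + F0 y 2 = 0 := by decide +kernel
theorem F1_a : ∀ (y : ZMod 5), F1 y 0 + F1 y 1 + F1 y 2 = 0 := by decide +kernel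
theorem F0_y : ∀ (a : ZMod 3), F0 0 a + F0 1 a + F0 2 a + F0 3 a + F0 4 a = 0 := by decide +kernel
theorem F1_y : ∀ (a : ZMod 3), F1 0 a + F1 1 a + F1 2 a + F1 3 a + F1 4 a = 0 := by decide +kernel

section
variable {t : ℕ}

abbrev G5 (t : ℕ) := ZMod (2 * t + 1) × K45

def RR (z : ZMod (2 * t + 1)) (y : ZMod 5) (a : ZMod 3) : ℕ :=
  if y = 4 then 2 * t - row t a z.val
  else if y = 3 then row t a z.val
  else if y = 2 then row t (a + 2) z.val
  else if y = 1 then row t (a + 1) z.val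
  else row t a z.val

theorem row_sum {y : ℕ} (hy : y < 2 * t + 1) : row t 0 y + row t 1 y + row t 2 y = 3 * t := by
  have r0 : row t 0 y = y := by simp [row]
  have r1 : row t 1 y = if y ≤ t then y + t else y - t - 1 := by
    unfold row
    rw [if_neg (by decide), if_pos rfl]
  have r2 : row t 2 y = if y ≤ t then 2 * t - 2 * y else 4 * t + 1 - 2 * y := by
    unfold row
    rw [if_neg (by decide), if_neg (by decide)]
  rw [r0, r1, r2]
  split_ifs <;> omega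

theorem row_sum' (x : ZMod 3) {y : ℕ} (hy : y < 2 * t + 1) :
    row t x y + row t (x + 1) y + row t (x + 2) y = 3 * t := by
  have h := three_sum (fun x => (row t x y : ℤ)) x
  have h0 := row_sum (t := t) hy
  omega

theorem RR_lt (z : ZMod (2 * t + 1)) (y : ZMod 5) (a : ZMod 3) : RR z y a < 2 * t + 1 := by
  have h := fun x => row_lt (t := t) x (ZMod.val_lt z)
  unfold RR
  have h1 := h a
  have h2 := h (a + 1)
  have h3 := h (a + 2)
  split_ifs <;> omega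

theorem RR_inj (z z' : ZMod (2 * t + 1)) (y : ZMod 5) (a : ZMod 3) (h : RR z y a = RR z' y a) :
    z = z' := by
  have hz := ZMod.val_lt z
  have hz' := ZMod.val_lt z'
  apply ZMod.val_injective
  unfold RR at h
  split_ifs at h
  · have h1 := row_lt (t := t) a hz
    have h2 := row_lt (t := t) a hz'
    exact row_inj a hz hz' (by omega)
  · exact row_inj _ hz hz' h
  · exact row_inj _ hz hz' h
  · exact row_inj _ hz hz' h
  · exact row_inj _ hz hz' h

theorem RR_a (z : ZMod (2 * t + 1)) (y : ZMod 5) : RR z y 0 + RR z y 1 + RR z y 2 = 3 * t := by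
  have hz := ZMod.val_lt z
  have h := row_sum (t := t) hz
  have e1 : (0 : ZMod 3) + 1 = 1 := by decide
  have e2 : (1 : ZMod 3) + 1 = 2 := by decide
  have e3 : (2 : ZMod 3) + 1 = 0 := by decide
  have e4 : (0 : ZMod 3) + 2 = 2 := by decide
  have e5 : (1 : ZMod 3) + 2 = 0 := by decide
  have e6 : (2 : ZMod 3) + 2 = 1 := by decide
  have l0 := row_lt (t := t) 0 hz
  have l1 := row_lt (t := t) 1 hz
  have l2 := row_lt (t := t) 2 hz
  unfold RR
  rw [e1, e2, e3, e4, e5, e6]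
  split_ifs <;> omega

theorem RR_y (z : ZMod (2 * t + 1)) (a : ZMod 3) :
    RR z 0 a + RR z 1 a + RR z 2 a + RR z 3 a + RR z 4 a = 5 * t := by
  have hz := ZMod.val_lt z
  have h := row_sum' (t := t) a hz
  have l0 := row_lt (t := t) a hz
  have q0 : RR z 0 a = row t a z.val := by
    unfold RR
    rw [if_neg (by decide), if_neg (by decide), if_neg (by decide), if_neg (by decide)]
  have q1 : RR z 1 a = row t (a + 1) z.val := by
    unfold RR
    rw [if_neg (by decide), if_neg (by decide), if_neg (by decide), if_pos rfl]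
  have q2 : RR z 2 a = row t (a + 2) z.val := by
    unfold RR
    rw [if_neg (by decide), if_neg (by decide), if_pos rfl]
  have q3 : RR z 3 a = row t a z.val := by
    unfold RR
    rw [if_neg (by decide), if_pos rfl]
  have q4 : RR z 4 a = 2 * t - row t a z.val := by
    unfold RR
    rw [if_pos rfl]
  omega

def f0 (z : ZMod (2 * t + 1)) (y : ZMod 5) (a : ZMod 3) : ℤ :=
  2 * ((2 * (t : ℤ) + 1) * F0 y a + RR z y a - t)

def f1 (t : ℕ) (y : ZMod 5) (b : ZMod 3) : ℤ := 2 * ((2 * (t : ℤ) + 1) * F1 y b)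

theorem f0_a (z : ZMod (2 * t + 1)) (y : ZMod 5) (a : ZMod 3) :
    f0 z y a + f0 z y (a + 1) + f0 z y (a + 2) = 0 := by
  rw [three_sum (f0 z y) a]
  unfold f0
  have h1 := F0_a y
  have h2 : ((RR z y 0 : ℕ) : ℤ) + RR z y 1 + RR z y 2 = 3 * t := by exact_mod_cast RR_a z y
  have : (2 * (t : ℤ) + 1) * F0 y 0 + (2 * (t : ℤ) + 1) * F0 y 1 + (2 * (t : ℤ) + 1) * F0 y 2 = 0 := by
    rw [← mul_add, ← mul_add, h1, mul_zero]
  linarith

theorem f1_a (y : ZMod 5) (a : ZMod 3) :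
    f1 t y a + f1 t y (a + 1) + f1 t y (a + 2) = 0 := by
  rw [three_sum (f1 t y) a]
  unfold f1
  have h1 := F1_a y
  have : (2 * (t : ℤ) + 1) * F1 y 0 + (2 * (t : ℤ) + 1) * F1 y 1 + (2 * (t : ℤ) + 1) * F1 y 2 = 0 := by
    rw [← mul_add, ← mul_add, h1, mul_zero]
  linarith

theorem sum5 (g : ZMod 5 → ℤ) : ∑ y, g y = g 0 + g 1 + g 2 + g 3 + g 4 :=
  Fin.sum_univ_five (f := (g : Fin 5 → ℤ))

theorem f0_y (z : ZMod (2 * t + 1)) (y : ZMod 5) (a : ZMod 3) : ∑ y', f0 z (y + y') a = 0 := by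
  rw [show (∑ y', f0 z (y + y') a) = ∑ y', f0 z y' a from
    Equiv.sum_comp (Equiv.addLeft y) (fun y' => f0 z y' a), sum5]
  unfold f0
  have h1 := F0_y a
  have h2 : ((RR z 0 a : ℕ) : ℤ) + RR z 1 a + RR z 2 a + RR z 3 a + RR z 4 a = 5 * t := by
    exact_mod_cast RR_y z a
  have : (2 * (t : ℤ) + 1) * F0 0 a + (2 * (t : ℤ) + 1) * F0 1 a + (2 * (t : ℤ) + 1) * F0 2 a +
    (2 * (t : ℤ) + 1) * F0 3 a + (2 * (t : ℤ) + 1) * F0 4 a = 0 := by
    rw [← mul_add, ← mul_add, ← mul_add, ← mul_add, h1, mul_zero]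
  linarith

theorem f1_y (y : ZMod 5) (a : ZMod 3) : ∑ y', f1 t (y + y') a = 0 := by
  rw [show (∑ y', f1 t (y + y') a) = ∑ y', f1 t y' a from
    Equiv.sum_comp (Equiv.addLeft y) (fun y' => f1 t y' a), sum5]
  unfold f1
  have h1 := F1_y a
  have : (2 * (t : ℤ) + 1) * F1 0 a + (2 * (t : ℤ) + 1) * F1 1 a + (2 * (t : ℤ) + 1) * F1 2 a +
    (2 * (t : ℤ) + 1) * F1 3 a + (2 * (t : ℤ) + 1) * F1 4 a = 0 := by
    rw [← mul_add, ← mul_add, ← mul_add, ← mul_add, h1, mul_zero]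
  linarith

def cn5 (v : G5 t) : ℤ := f0 v.1 v.2.1 v.2.2.1 + f1 t v.2.1 v.2.2.2

def lb5 (v : G5 t) : ℕ := (2 * t + 1) * E45 v.2.1 v.2.2.1 v.2.2.2 + RR v.1 v.2.1 v.2.2.1

theorem lb5_lt (v : G5 t) : lb5 v < 45 * (2 * t + 1) := by
  have h1 := E45_lt v.2.1 v.2.2.1 v.2.2.2
  have h2 := RR_lt v.1 v.2.1 v.2.2.1
  unfold lb5
  have h3 : E45 v.2.1 v.2.2.1 v.2.2.2 ≤ 44 := by omega
  have h4 : (2 * t + 1) * E45 v.2.1 v.2.2.1 v.2.2.2 ≤ (2 * t + 1) * 44 := Nat.mul_le_mul_left _ h3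
  omega

theorem lb5_inj : Function.Injective (lb5 : G5 t → ℕ) := by
  rintro ⟨z, y, a, b⟩ ⟨z', y', a', b'⟩ h
  unfold lb5 at h
  simp only at h
  have h2 := RR_lt z y a
  have h2' := RR_lt z' y' a'
  have hE : E45 y a b = E45 y' a' b' := by
    have e1 : ((2 * t + 1) * E45 y a b + RR z y a) / (2 * t + 1) = E45 y a b := by
      rw [Nat.mul_add_div (by omega), Nat.div_eq_of_lt h2, add_zero]
    have e2 : ((2 * t + 1) * E45 y' a' b' + RR z' y' a') / (2 * t + 1) = E45 y' a' b' := by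
      rw [Nat.mul_add_div (by omega), Nat.div_eq_of_lt h2', add_zero]
    rw [← e1, ← e2, h]
  obtain ⟨hy, ha, hb⟩ := E45_inj y a b y' a' b' hE
  have hy' : y = y' := hy
  have ha' : a = a' := ha
  have hb' : b = b' := hb
  subst hy' ha' hb'
  have hR : RR z y a = RR z' y a := by omega
  rw [RR_inj z z' y a hR]

theorem two_lb5 (v : G5 t) :
    2 * (lb5 v : ℤ) = cn5 v + ((45 * (2 * t + 1) : ℕ) : ℤ) - 1 := by
  unfold lb5 cn5 f0 f1
  have h := E45_cast v.2.1 v.2.2.1 v.2.2.2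
  push_cast
  rw [h]
  ring

end

end Pool.Agent.Helper119.HC
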