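import Pool.Agent.Helper119.HC.F45

open Finset

namespace Pool.Agent.Helper119.HC

section
variable {t : ℕ}

/-- the vector `(0; 0; 1, 1)` -/
def h5 (t : ℕ) : G5 t := (0, (0, (1, 1)))

theorem h5_3 : h5 t + h5 t + h5 t = 0 := by
  refine Prod.ext (by simp [h5]) ?_
  show ((0, (1, 1)) : K45) + (0, (1, 1)) + (0, (1, 1)) = 0
  decide

theorem h5_ne : h5 t ≠ 0 := by
  intro h
  have : ((0, (1, 1)) : K45) = 0 := congrArg Prod.snd h
  exact absurd this (by decide)

theorem h5_ne2 : h5 t + h5 t ≠ 0 := by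
  intro h
  have : ((0, (1, 1)) : K45) + (0, (1, 1)) = 0 := congrArg Prod.snd h
  exact absurd this (by decide)

theorem neg_h5 : -h5 t = h5 t + h5 t := by
  rw [neg_eq_iff_add_eq_zero, ← add_assoc]
  exact h5_3

theorem cn5_sum (w : G5 t) : cn5 w + cn5 (w + h5 t) + cn5 (w + h5 t + h5 t) = 0 := by
  obtain ⟨z, y, a, b⟩ := w
  have e1 : ((z, (y, (a, b))) : G5 t) + h5 t = (z, (y, (a + 1, b + 1))) := by
    show (z + 0, (y + 0, (a + 1, b + 1))) = _
    rw [add_zero, add_zero]
  have e2 : ((z, (y, (a, b))) : G5 t) + h5 t + h5 t = (z, (y, (a + 2, b + 2))) := by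
    rw [e1]
    show (z + 0, (y + 0, (a + 1 + 1, b + 1 + 1))) = _
    rw [add_zero, add_zero, add_assoc, add_assoc]
    rfl
  rw [e2, e1]
  show f0 z y a + f1 t y b + (f0 z y (a + 1) + f1 t y (b + 1)) +
    (f0 z y (a + 2) + f1 t y (b + 2)) = 0
  have := f0_a z y a
  have := f1_a (t := t) y b
  linarith

theorem add5 (g : G5 t) : g + h5 t + h5 t + h5 t = g := by
  rw [add_assoc, add_assoc, ← add_assoc (h5 t), h5_3, add_zero]

def O5 (u : G5 t) : Finset (G5 t) :=
  {u, u + h5 t, u + h5 t + h5 t, -u, -u + h5 t, -u + h5 t + h5 t}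

theorem o5_closed (u : G5 t) : (∀ g ∈ O5 u, g + h5 t ∈ O5 u) ∧ ∀ g ∈ O5 u, -g ∈ O5 u := by
  constructor
  · intro g hg
    simp only [O5, mem_insert, mem_singleton] at hg ⊢
    rcases hg with rfl | rfl | rfl | rfl | rfl | rfl
    · tauto
    · tauto
    · left; exact add5 u
    · tauto
    · tauto
    · right; right; right; left; exact add5 _
  · intro g hg
    have n1 : ∀ x : G5 t, -(x + h5 t) = -x + h5 t + h5 t := by
      intro x; rw [neg_add, neg_h5, ← add_assoc]
    have n2 : ∀ x : G5 t, -(x + h5 t + h5 t) = -x + h5 t := by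
      intro x; rw [n1, n1, add5]
    simp only [O5, mem_insert, mem_singleton] at hg ⊢
    rcases hg with rfl | rfl | rfl | rfl | rfl | rfl
    · tauto
    · right; right; right; right; right; exact n1 u
    · right; right; right; right; left; exact n2 u
    · left; rw [neg_neg]
    · right; right; left; rw [n1, neg_neg]
    · right; left; rw [n2, neg_neg]

/-- projection to the part of order prime to 3 (first factor and `Z_5`) -/
def pr (g : G5 t) : ZMod (2 * t + 1) × ZMod 5 := (g.1, g.2.1)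

theorem pr_ne {u : G5 t} (hu : pr u ≠ 0) : pr u ≠ -pr u := by
  intro h
  apply hu
  have h1 : u.1 = -u.1 := congrArg Prod.fst h
  have h2 : u.2.1 = -u.2.1 := congrArg Prod.snd h
  have g2 : u.2.1 = 0 := by
    have : ∀ a : ZMod 5, a = -a → a = 0 := by decide
    exact this _ h2
  have g1 : u.1 = 0 := by
    have h3 : u.1 + u.1 = 0 := by nth_rewrite 2 [h1]; rw [add_neg_cancel]
    have h4 : (2 : ZMod (2 * t + 1)) * u.1 = 0 := (two_mul u.1).trans h3
    have hunit : IsUnit (2 : ZMod (2 * t + 1)) := by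
      have : IsUnit ((2 : ℕ) : ZMod (2 * t + 1)) := by
        rw [ZMod.isUnit_iff_coprime]
        rw [Nat.coprime_two_left]
        exact ⟨t, rfl⟩
      exact_mod_cast this
    exact (hunit.mul_right_eq_zero).1 h4
  exact Prod.ext g1 g2

theorem pr_add (x : G5 t) : pr (x + h5 t) = pr x := by
  show (x.1 + 0, x.2.1 + 0) = (x.1, x.2.1)
  rw [add_zero, add_zero]

theorem o5_card {u : G5 t} (hu : pr u ≠ 0) : (O5 u).card = 6 := by
  have hne := pr_ne hu
  have d1 : ∀ x : G5 t, x ≠ x + h5 t := fun x h => h5_ne (by simpa using h.symm)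
  have d2 : ∀ x : G5 t, x ≠ x + h5 t + h5 t := fun x h => h5_ne2 (t := t) (by
    have : x + (h5 t + h5 t) = x + 0 := by rw [add_zero, ← add_assoc]; exact h.symm
    exact add_left_cancel this)
  have d3 : ∀ x y : G5 t, pr x = pr u → pr y = -pr u → x ≠ y := fun x y hx hy h =>
    hne ((hx.symm.trans (congrArg pr h)).trans hy)
  have nf : pr (-u) = -pr u := rfl
  unfold O5
  rw [card_insert_of_notMem, card_insert_of_notMem, card_insert_of_notMem, card_insert_of_notMem,
    card_pair (d1 _)]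
  · simp only [mem_insert, mem_singleton, not_or]
    exact ⟨d1 _, d2 _⟩
  · simp only [mem_insert, mem_singleton, not_or]
    refine ⟨d3 _ _ ?_ nf, d3 _ _ ?_ ?_, d3 _ _ ?_ ?_⟩ <;> simp only [pr_add, nf]
  · simp only [mem_insert, mem_singleton, not_or]
    refine ⟨d1 _, d3 _ _ ?_ nf, d3 _ _ ?_ ?_, d3 _ _ ?_ ?_⟩ <;> simp only [pr_add, nf]
  · simp only [mem_insert, mem_singleton, not_or]
    refine ⟨d1 _, d2 _, d3 _ _ rfl nf, d3 _ _ rfl ?_, d3 _ _ rfl ?_⟩ <;> simp only [pr_add, nf]

/-- invariance -/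
def Inv5 (P : Finset (G5 t)) : Prop :=
  (∀ g ∈ P, g + h5 t ∈ P) ∧ (∀ g ∈ P, -g ∈ P) ∧ ∀ g ∈ P, pr g ≠ 0

theorem chain5 {V : Finset (G5 t)} (hV : Inv5 V) (N : ℕ) (hN : 6 * N ≤ V.card) :
    ∃ P : Finset (G5 t), P ⊆ V ∧ Inv5 P ∧ P.card = 6 * N := by
  induction N with
  | zero => exact ⟨∅, by simp, ⟨by simp, by simp, by simp⟩, by simp⟩
  | succ N ih =>
    obtain ⟨P, hPV, hP, hc⟩ := ih (by omega)
    obtain ⟨u, huV, huP⟩ : ∃ u ∈ V, u ∉ P := by
      by_contra hcon
      push Not at hcon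
      have := card_le_card (show V ⊆ P from hcon)
      omega
    have hu := hV.2.2 u huV
    obtain ⟨c1, c2⟩ := o5_closed u
    have hOV : O5 u ⊆ V := by
      intro g hg
      simp only [O5, mem_insert, mem_singleton] at hg
      have v1 := hV.1
      have v2 := hV.2.1
      rcases hg with rfl | rfl | rfl | rfl | rfl | rfl
      · exact huV
      · exact v1 _ huV
      · exact v1 _ (v1 _ huV)
      · exact v2 _ huV
      · exact v1 _ (v2 _ huV)
      · exact v1 _ (v1 _ (v2 _ huV))
    refine ⟨P ∪ O5 u, union_subset hPV hOV, ⟨?_, ?_, ?_⟩, ?_⟩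
    · intro g hg
      rw [mem_union] at hg ⊢
      rcases hg with h | h
      · exact Or.inl (hP.1 g h)
      · exact Or.inr (c1 g h)
    · intro g hg
      rw [mem_union] at hg ⊢
      rcases hg with h | h
      · exact Or.inl (hP.2.1 g h)
      · exact Or.inr (c2 g h)
    · intro g hg
      exact hV.2.2 g (union_subset hPV hOV hg)
    · have hd : Disjoint P (O5 u) := by
        rw [disjoint_right]
        intro g hg hgP
        apply huP
        have n1 : ∀ x : G5 t, x ∈ P → x + h5 t ∈ P := hP.1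
        simp only [O5, mem_insert, mem_singleton] at hg
        have key : ∀ x : G5 t, (x ∈ P ∨ x + h5 t ∈ P ∨ x + h5 t + h5 t ∈ P) → x ∈ P := by
          intro x hx
          rcases hx with h | h | h
          · exact h
          · have := n1 _ (n1 _ h); rwa [add5] at this
          · have := n1 _ h; rwa [add5] at this
        rcases hg with rfl | rfl | rfl | rfl | rfl | rfl
        · exact hgP
        · exact key u (Or.inr (Or.inl hgP))
        · exact key u (Or.inr (Or.inr hgP))
        · have := hP.2.1 _ hgP; rwa [neg_neg] at this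
        · have := hP.2.1 _ (key (-u) (Or.inr (Or.inl hgP))); rwa [neg_neg] at this
        · have := hP.2.1 _ (key (-u) (Or.inr (Or.inr hgP))); rwa [neg_neg] at this
      rw [card_union_of_disjoint hd, hc, o5_card hu]
      ring

def em (t : ℕ) (k : K45) : G5 t := (0, k)

theorem em_inj : Function.Injective (em t) := fun _ _ h => congrArg Prod.snd h

/-- the action of a set of shifts of the last two coordinates -/
theorem zero_sum (v : G5 t) (S : Finset (ZMod 3 × ZMod 3)) :
    ∑ k ∈ ({0} : Finset (ZMod 5)) ×ˢ S, cn5 (v + em t k) =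
      ∑ s ∈ S, (f0 v.1 v.2.1 (v.2.2.1 + s.1) + f1 t v.2.1 (v.2.2.2 + s.2)) := by
  obtain ⟨z, y, a, b⟩ := v
  rw [sum_product, sum_singleton]
  apply sum_congr rfl
  rintro ⟨a', b'⟩ _
  show f0 (z + 0) (y + 0) (a + a') + f1 t (y + 0) (b + b') = _
  rw [add_zero, add_zero]

theorem lines_sum (v : G5 t) (A : Finset (ZMod 3 × ZMod 3)) :
    ∑ k ∈ (univ : Finset (ZMod 5)) ×ˢ A, cn5 (v + em t k) = 0 := by
  obtain ⟨z, y, a, b⟩ := v
  rw [sum_product_right]
  apply sum_eq_zero
  rintro ⟨a', b'⟩ _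
  have e : ∀ y' : ZMod 5, cn5 (((z, (y, (a, b))) : G5 t) + em t (y', (a', b'))) =
      f0 z (y + y') (a + a') + f1 t (y + y') (b + b') := by
    intro y'
    show f0 (z + 0) (y + y') (a + a') + f1 t (y + y') (b + b') = _
    rw [add_zero]
  rw [sum_congr rfl (fun y' _ => e y'), sum_add_distrib, f0_y, f1_y, add_zero]

theorem compl_sum (v : G5 t) (S : Finset (ZMod 3 × ZMod 3)) :
    ∑ k ∈ ({0}ᶜ : Finset (ZMod 5)) ×ˢ S, cn5 (v + em t k) =
      - ∑ k ∈ ({0} : Finset (ZMod 5)) ×ˢ S, cn5 (v + em t k) := by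
  have h := lines_sum v S
  rw [sum_product] at h ⊢
  rw [sum_product]
  have := sum_compl_add_sum (s := ({0} : Finset (ZMod 5)))
    (f := fun x => ∑ y ∈ S, cn5 (v + em t (x, y)))
  linarith

/-- the condition on the two slices -/
def Act (S0 S1 : Finset (ZMod 3 × ZMod 3)) : Prop :=
  ∀ (φ ψ : ZMod 3 → ℤ) (a b : ZMod 3), φ a + φ (a + 1) + φ (a + 2) = 0 →
    ψ b + ψ (b + 1) + ψ (b + 2) = 0 →
    ∑ s ∈ S0, (φ (a + s.1) + ψ (b + s.2)) - ∑ s ∈ S1, (φ (a + s.1) + ψ (b + s.2)) = φ a + ψ b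

theorem main45 (S0 S1 : Finset (ZMod 3 × ZMod 3)) (T : Finset K45) (N : ℕ)
    (hn0 : ∀ a ∈ S0, -a ∈ S0) (hn1 : ∀ a ∈ S1, -a ∈ S1) (hA0 : (0 : ZMod 3 × ZMod 3) ∉ S0)
    (hact : Act S0 S1)
    (hT1 : ∀ g ∈ T, g + (0, (1, 1)) ∈ T) (hT2 : ∀ g ∈ T, -g ∈ T) (hT3 : ∀ g ∈ T, g.1 ≠ 0)
    (hTd : Disjoint (({0} : Finset (ZMod 5)) ×ˢ S0 ∪ ({0}ᶜ : Finset (ZMod 5)) ×ˢ S1) T)
    (hN : 6 * N ≤ 90 * t + T.card) :
    Handicap (45 * (2 * t + 1)) (S0.card + 4 * S1.card + 6 * N) 1 := by
  have hd : Disjoint (({0} : Finset (ZMod 5)) ×ˢ S0) (({0}ᶜ : Finset (ZMod 5)) ×ˢ S1) := by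
    rw [disjoint_left]
    intro k hk hk'
    rw [mem_product, mem_singleton] at hk
    rw [mem_product, mem_compl, mem_singleton] at hk'
    exact hk'.1 hk.1
  set Q : Finset K45 := ({0} : Finset (ZMod 5)) ×ˢ S0 ∪ ({0}ᶜ : Finset (ZMod 5)) ×ˢ S1 with hQ
  let V2 : Finset (G5 t) := ({0}ᶜ : Finset (ZMod (2 * t + 1))) ×ˢ (univ : Finset K45)
  let V : Finset (G5 t) := V2 ∪ T.image (em t)
  have hV2 : ∀ g : G5 t, g ∈ V2 ↔ g.1 ≠ 0 := by
    intro g
    simp [V2]
  have hV : ∀ g : G5 t, g ∈ V ↔ g.1 ≠ 0 ∨ (g.1 = 0 ∧ g.2 ∈ T) := by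
    intro g
    simp only [V]
    rw [mem_union, hV2, mem_image]
    constructor
    · rintro (h | ⟨k, hk, rfl⟩)
      · exact Or.inl h
      · exact Or.inr ⟨rfl, hk⟩
    · rintro (h | ⟨h, hk⟩)
      · exact Or.inl h
      · exact Or.inr ⟨g.2, hk, Prod.ext h.symm rfl⟩
  have hVc : V.card = 90 * t + T.card := by
    simp only [V]
    rw [card_union_of_disjoint, card_image_of_injective _ em_inj]
    · congr 1
      simp only [V2]
      rw [card_product, card_compl, card_singleton, ZMod.card, card_univ]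
      have : Fintype.card K45 = 45 := by simp [K45, ZMod.card]
      rw [this]
      omega
    · rw [disjoint_left]
      intro g hg hg'
      rw [hV2] at hg
      rw [mem_image] at hg'
      obtain ⟨k, _, rfl⟩ := hg'
      exact hg rfl
  have hIV : Inv5 V := by
    refine ⟨?_, ?_, ?_⟩
    · intro g hg
      rw [hV] at hg ⊢
      have e1 : (g + h5 t).1 = g.1 := by show g.1 + 0 = g.1; rw [add_zero]
      rw [e1]
      rcases hg with h | ⟨h, h'⟩
      · exact Or.inl h
      · exact Or.inr ⟨h, hT1 _ h'⟩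
    · intro g hg
      rw [hV] at hg ⊢
      rcases hg with h | ⟨h, h'⟩
      · exact Or.inl (by show -g.1 ≠ 0; exact neg_ne_zero.2 h)
      · exact Or.inr ⟨by show -g.1 = 0; rw [h, neg_zero], hT2 _ h'⟩
    · intro g hg
      rw [hV] at hg
      intro h0
      have h1 : g.1 = 0 := congrArg Prod.fst h0
      have h2 : g.2.1 = 0 := congrArg Prod.snd h0
      rcases hg with h | ⟨h, h'⟩
      · exact h h1
      · exact hT3 _ h' h2
  obtain ⟨P, hPV, hP, hc⟩ := chain5 hIV N (by rw [hVc]; exact hN)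
  have hcard : Fintype.card (G5 t) = 45 * (2 * t + 1) := by
    simp [G5, K45, ZMod.card]
    ring
  have hdisj : Disjoint (Q.image (em t)) P := by
    rw [disjoint_left]
    intro g hg hgP
    rw [mem_image] at hg
    obtain ⟨k, hk, rfl⟩ := hg
    have := hPV hgP
    rw [hV] at this
    rcases this with h | ⟨_, h⟩
    · exact h rfl
    · exact (disjoint_left.1 hTd) hk h
  have hQn : ∀ k ∈ Q, -k ∈ Q := by
    intro k hk
    rw [hQ, mem_union] at hk ⊢
    rcases hk with h | h
    · left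
      rw [mem_product, mem_singleton] at h ⊢
      exact ⟨by show -k.1 = 0; rw [h.1, neg_zero], hn0 _ h.2⟩
    · right
      rw [mem_product, mem_compl, mem_singleton] at h ⊢
      exact ⟨by show ¬ -k.1 = 0; exact neg_ne_zero.2 h.1, hn1 _ h.2⟩
  have hQ0 : (0 : K45) ∉ Q := by
    rw [hQ, mem_union, not_or]
    constructor
    · intro h
      rw [mem_product] at h
      exact hA0 h.2
    · intro h
      rw [mem_product, mem_compl, mem_singleton] at h
      exact h.1 rfl
  have hQc : Q.card = S0.card + 4 * S1.card := by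
    rw [hQ, card_union_of_disjoint hd, card_product, card_product, card_compl, card_singleton,
      ZMod.card, one_mul]
  refine of_conn_gen hcard lb5 cn5 lb5_lt lb5_inj two_lb5 _ _ (Q.image (em t) ∪ P) ?_ ?_ ?_ ?_
  · rw [card_union_of_disjoint hdisj, card_image_of_injective _ em_inj, hQc, hc]
  · rw [mem_union, not_or]
    constructor
    · intro h
      rw [mem_image] at h
      obtain ⟨k, hk, h⟩ := h
      have : k = 0 := congrArg Prod.snd h
      exact hQ0 (this ▸ hk)
    · intro h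
      exact hP.2.2 _ h rfl
  · intro g hg
    rw [mem_union] at hg ⊢
    rcases hg with h | h
    · left
      rw [mem_image] at h ⊢
      obtain ⟨k, hk, rfl⟩ := h
      refine ⟨-k, hQn k hk, ?_⟩
      refine Prod.ext ?_ rfl
      show (0 : ZMod (2 * t + 1)) = -0
      rw [neg_zero]
    · exact Or.inr (hP.2.1 g h)
  · intro v
    have hv := hact (f0 v.1 v.2.1) (f1 t v.2.1) v.2.2.1 v.2.2.2 (f0_a _ _ _) (f1_a _ _)
    rw [sum_union hdisj, sum_image (fun a _ b _ h => em_inj h), hQ, sum_union hd, compl_sum,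
      zero_sum, zero_sum, ← sub_eq_add_neg, hv]
    have s1 : ∀ F : G5 t → ℤ, ∑ g ∈ P, F (g + h5 t) = ∑ g ∈ P, F g := by
      intro F
      apply Finset.sum_bij (fun g _ => g + h5 t)
      · intro g hg; exact hP.1 g hg
      · intro a _ b _ h; exact add_right_cancel h
      · intro b hb
        exact ⟨b + h5 t + h5 t, hP.1 _ (hP.1 _ hb), add5 b⟩
      · intro g _; rfl
    have h0 : ∑ g ∈ P, cn5 (v + g) = 0 := by
      have a1 := s1 (fun g => cn5 (v + g))
      have a2 := s1 (fun g => cn5 (v + (g + h5 t)))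
      have a3 : ∑ g ∈ P, (cn5 (v + g) + cn5 (v + (g + h5 t)) +
          cn5 (v + (g + h5 t + h5 t))) = 0 := by
        apply Finset.sum_eq_zero
        intro g _
        have := cn5_sum (v + g)
        rw [add_assoc v g (h5 t), add_assoc v (g + h5 t) (h5 t)] at this
        exact this
      rw [Finset.sum_add_distrib, Finset.sum_add_distrib] at a3
      linarith
    rw [h0, add_zero]
    show _ = ((1 : ℕ) : ℤ) * (f0 v.1 v.2.1 v.2.2.1 + f1 t v.2.1 v.2.2.2)
    push_cast
    ring

theorem act0 : Act {(1, 0), (2, 0), (0, 1), (0, 2)} ∅ := by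
  intro φ ψ a b h1 h2
  rw [sum_insert (by decide), sum_insert (by decide), sum_insert (by decide), sum_singleton,
    sum_empty]
  simp only [add_zero]
  linarith

theorem act1 : Act {(1, 0), (2, 0), (0, 1), (0, 2), (1, 1), (2, 2)} {(1, 1), (2, 2)} := by
  intro φ ψ a b h1 h2
  rw [sum_insert (by decide), sum_insert (by decide), sum_insert (by decide),
    sum_insert (by decide), sum_insert (by decide), sum_singleton]
  simp only [add_zero]
  linarith

theorem act2 : Act {(1, 0), (2, 0), (0, 1), (0, 2), (1, 1), (2, 2), (1, 2), (2, 1)}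
    {(1, 1), (2, 2), (1, 2), (2, 1)} := by
  intro φ ψ a b h1 h2
  rw [sum_insert (by decide), sum_insert (by decide), sum_insert (by decide),
    sum_insert (by decide), sum_insert (by decide), sum_insert (by decide), sum_insert (by decide),
    sum_singleton]
  simp only [add_zero]
  linarith

theorem act8 : Act ∅ {(1, 2), (2, 1)} := by
  intro φ ψ a b h1 h2
  rw [sum_empty, sum_insert (by decide), sum_singleton]
  simp only
  linarith

theorem act18 : Act {(0, 1), (0, 2)} {(0, 1), (0, 2), (1, 2), (2, 1)} := by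
  intro φ ψ a b h1 h2
  rw [sum_insert (by decide), sum_singleton, sum_insert (by decide), sum_insert (by decide),
    sum_insert (by decide), sum_singleton]
  simp only [add_zero]
  linarith

theorem act30 : Act {(0, 1), (0, 2)} {(0, 0), (0, 1), (0, 2), (1, 1), (1, 2), (2, 1), (2, 2)} := by
  intro φ ψ a b h1 h2
  rw [sum_insert (by decide), sum_singleton, sum_insert (by decide), sum_insert (by decide),
    sum_insert (by decide), sum_insert (by decide), sum_insert (by decide), sum_insert (by decide),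
    sum_singleton]
  simp only [add_zero]
  linarith

theorem main45_0 (t N : ℕ) (hN : 6 * N ≤ 90 * t + 36) :
    Handicap (45 * (2 * t + 1)) (4 + 6 * N) 1 :=
  main45 (t := t) {(1, 0), (2, 0), (0, 1), (0, 2)} ∅ (univ.filter (fun g : K45 => g.1 ≠ 0)) N
    (by decide) (by decide) (by decide) act0
    (by decide +kernel) (by decide +kernel) (by decide +kernel) (by decide +kernel) (by
      have : (univ.filter (fun g : K45 => g.1 ≠ 0)).card = 36 := by decide +kernel
      rw [this]; exact hN)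

theorem main45_1 (t N : ℕ) (hN : 6 * N ≤ 90 * t + 24) :
    Handicap (45 * (2 * t + 1)) (14 + 6 * N) 1 :=
  main45 (t := t) {(1, 0), (2, 0), (0, 1), (0, 2), (1, 1), (2, 2)} {(1, 1), (2, 2)}
    (univ.filter (fun g : K45 => g.1 ≠ 0 ∧ g.2.1 ≠ g.2.2)) N
    (by decide) (by decide) (by decide) act1
    (by decide +kernel) (by decide +kernel) (by decide +kernel) (by decide +kernel) (by
      have : (univ.filter (fun g : K45 => g.1 ≠ 0 ∧ g.2.1 ≠ g.2.2)).card = 24 := by decide +kernel
      rw [this]; exact hN)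

theorem main45_2 (t N : ℕ) (hN : 6 * N ≤ 90 * t) :
    Handicap (45 * (2 * t + 1)) (24 + 6 * N) 1 :=
  main45 (t := t) {(1, 0), (2, 0), (0, 1), (0, 2), (1, 1), (2, 2), (1, 2), (2, 1)}
    {(1, 1), (2, 2), (1, 2), (2, 1)} ∅ N
    (by decide) (by decide) (by decide) act2
    (by simp) (by simp) (by simp) (by simp) (by simpa using hN)

theorem main45_8 (t : ℕ) : Handicap (45 * (2 * t + 1)) 8 1 :=
  main45 (t := t) ∅ {(1, 2), (2, 1)} ∅ 0
    (by decide) (by decide) (by decide) act8
    (by simp) (by simp) (by simp) (by simp) (by simp)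

theorem main45_18 (t N : ℕ) (hN : 6 * N ≤ 90 * t) :
    Handicap (45 * (2 * t + 1)) (18 + 6 * N) 1 :=
  main45 (t := t) {(0, 1), (0, 2)} {(0, 1), (0, 2), (1, 2), (2, 1)} ∅ N
    (by decide) (by decide) (by decide) act18
    (by simp) (by simp) (by simp) (by simp) (by simpa using hN)

theorem main45_30 (t N : ℕ) (hN : 6 * N ≤ 90 * t) :
    Handicap (45 * (2 * t + 1)) (30 + 6 * N) 1 :=
  main45 (t := t) {(0, 1), (0, 2)} {(0, 0), (0, 1), (0, 2), (1, 1), (1, 2), (2, 1), (2, 2)} ∅ N
    (by decide) (by decide) (by decide) act30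
    (by simp) (by simp) (by simp) (by simp) (by simpa using hN)

end

end Pool.Agent.Helper119.HC
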