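import Pool.Agent.Helper119.HC.Nec

open Finset

namespace Pool.Agent.Helper119.HC

theorem sg_add (a b : ZMod 2) : sg (a + b) = sg a * sg b := by
  revert a b; decide

theorem of_conn {m k : ℕ} [NeZero m] (d r : ℕ) (C : Finset (Gam m (k + 1))) (hcr : C.card = r)
    (hC0 : (0 : Gam m (k + 1)) ∉ C) (hCn : ∀ g ∈ C, -g ∈ C)
    (hCs : ∀ v : Gam m (k + 1), ∑ g ∈ C, cen (v + g) = (d : ℤ) * cen v) :
    Handicap (2 * m * 2 ^ k) r d := by
  set p := 2 * m * 2 ^ k with hpdef
  have hcard : Fintype.card (Gam m (k + 1)) = p := by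
    simp [Gam, ZMod.card, hpdef]
    ring
  let f : Gam m (k + 1) → Fin p := fun v => ⟨lab v, lab_lt v⟩
  have hf : Function.Bijective f := by
    rw [Fintype.bijective_iff_injective_and_card]
    refine ⟨fun a b hab => lab_inj (congrArg Fin.val hab), ?_⟩
    rw [hcard, Fintype.card_fin]
  let e : Gam m (k + 1) ≃ Fin p := Equiv.ofBijective f hf
  have he : ∀ v, (e v : ℕ) = lab v := fun v => rfl
  let G : SimpleGraph (Fin p) :=
    { Adj := fun i j => e.symm j - e.symm i ∈ C
      symm := ⟨fun i j h => by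
        have := hCn _ h
        rwa [neg_sub] at this⟩
      loopless := ⟨fun i h => by
        rw [sub_self] at h
        exact hC0 h⟩ }
  have hdec : DecidableRel G.Adj := fun i j => inferInstanceAs (Decidable (e.symm j - e.symm i ∈ C))
  have hinj : ∀ i : Fin p, Function.Injective (fun g => e (e.symm i + g)) := by
    intro i a b hab
    exact add_left_cancel (e.injective hab)
  have hN : ∀ i : Fin p, G.neighborFinset i = C.map ⟨fun g => e (e.symm i + g), hinj i⟩ := by
    intro i
    ext j
    rw [SimpleGraph.mem_neighborFinset, mem_map]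
    constructor
    · intro h
      refine ⟨e.symm j - e.symm i, h, ?_⟩
      show e (e.symm i + (e.symm j - e.symm i)) = j
      rw [add_sub_cancel, Equiv.apply_symm_apply]
    · rintro ⟨g, hg, rfl⟩
      show e.symm (e (e.symm i + g)) - e.symm i ∈ C
      rw [Equiv.symm_apply_apply, add_sub_cancel_left]
      exact hg
  refine ⟨G, hdec, Equiv.refl _, ?_, ?_⟩
  · intro v
    rw [← SimpleGraph.card_neighborFinset_eq_degree, hN, card_map, hcr]
  · have hw : ∀ i : Fin p, 2 * ((∑ x ∈ G.neighborFinset i, ((x : ℕ) + 1) : ℕ) : ℤ) =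
        (d : ℤ) * cen (e.symm i) + r * ((p : ℤ) + 1) := by
      intro i
      rw [hN, sum_map]
      push_cast
      rw [mul_sum]
      have hterm : ∀ g ∈ C, 2 * (((e (e.symm i + g) : Fin p) : ℕ) + 1 : ℤ) =
          cen (e.symm i + g) + ((p : ℤ) + 1) := by
        intro g _
        rw [he]
        have := two_lab (e.symm i + g)
        have hpz : (p : ℤ) = 2 * m * 2 ^ k := by rw [hpdef]; push_cast; ring
        rw [hpz]
        linarith
      rw [show (∑ g ∈ C, 2 * ((((⟨fun g => e (e.symm i + g), hinj i⟩ : Gam m (k + 1) ↪ Fin p) g : Fin p) : ℕ) + 1 : ℤ)) =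
        ∑ g ∈ C, (cen (e.symm i + g) + ((p : ℤ) + 1)) from Finset.sum_congr rfl hterm]
      rw [sum_add_distrib, hCs, sum_const, hcr, nsmul_eq_mul]
    intro u v huv
    have huv' : (v : ℕ) = (u : ℕ) + 1 := huv
    have hu := hw u
    have hv := hw v
    have lu := two_lab (e.symm u)
    have lv := two_lab (e.symm v)
    rw [← he, Equiv.apply_symm_apply] at lu lv
    have hc : cen (e.symm v) = cen (e.symm u) + 2 := by
      have h3 : ((v : ℕ) : ℤ) = ((u : ℕ) : ℤ) + 1 := by rw [huv']; push_cast; ring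
      linarith
    rw [hc] at hv
    have : 2 * ((∑ x ∈ G.neighborFinset v, ((x : ℕ) + 1) : ℕ) : ℤ) =
        2 * (((∑ x ∈ G.neighborFinset u, ((x : ℕ) + 1)) + d : ℕ) : ℤ) := by
      push_cast at hu hv ⊢
      linarith
    have h4 := mul_left_cancel₀ (two_ne_zero) this
    exact_mod_cast h4

section
variable {m k : ℕ} [NeZero m]

/-- all-ones vector -/
def one (k : ℕ) : Fin (k + 1) → ZMod 2 := fun _ => 1

def emb (m : ℕ) (q : Fin (k + 1) → ZMod 2) : Gam m (k + 1) := (0, q)

omit [NeZero m] in
theorem emb_inj : Function.Injective (emb m : (Fin (k + 1) → ZMod 2) → Gam m (k + 1)) := by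
  intro a b h
  exact congrArg Prod.snd h

omit [NeZero m] in
theorem cen_emb (v : Gam m (k + 1)) (q : Fin (k + 1) → ZMod 2) :
    cen (v + emb m q) = ∑ i : Fin (k + 1), (W m v.1 i * sg (v.2 i)) * sg (q i) := by
  unfold cen
  apply Finset.sum_congr rfl
  intro i _
  show W m (v.1 + 0) i * sg (v.2 i + q i) = _
  rw [add_zero, sg_add]
  ring

omit [NeZero m] in
theorem cen_family (v : Gam m (k + 1)) (Q : Finset (Fin (k + 1) → ZMod 2)) (d : ℤ)
    (hQ : ∀ i, ∑ q ∈ Q, sg (q i) = d) :
    ∑ q ∈ Q, cen (v + emb m q) = d * cen v := by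
  rw [Finset.sum_congr rfl (fun q _ => cen_emb v q), Finset.sum_comm]
  unfold cen
  rw [Finset.mul_sum]
  apply Finset.sum_congr rfl
  intro i _
  rw [← Finset.mul_sum, hQ i]
  ring

/-- forbidden elements -/
def ZQ (m : ℕ) [NeZero m] (Q : Finset (Fin (k + 1) → ZMod 2)) : Finset (Gam m (k + 1)) :=
  ({0, one k} ∪ Q ∪ Q.image (fun q => q + one k)).image (emb m)

theorem ZQ_card (Q : Finset (Fin (k + 1) → ZMod 2)) : (ZQ m Q).card ≤ 2 * Q.card + 2 := by
  unfold ZQ
  refine card_image_le.trans ?_
  refine (card_union_le _ _).trans ?_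
  have h1 := card_union_le ({0, one k} : Finset (Fin (k + 1) → ZMod 2)) Q
  have h2 : ({0, one k} : Finset (Fin (k + 1) → ZMod 2)).card ≤ 2 := card_le_two
  have h3 := card_image_le (s := Q) (f := fun q => q + one k)
  omega

omit [NeZero m] in
theorem one_add_one : one k + one k = 0 := by
  funext i
  show (1 : ZMod 2) + 1 = 0
  decide

theorem UQ_inv (Q : Finset (Fin (k + 1) → ZMod 2)) :
    Inv (kap m k) (Finset.univ \ ZQ m Q) := by
  have hneg : ∀ g ∈ ZQ m Q, -g = g := by
    intro g hg
    unfold ZQ at hg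
    rw [mem_image] at hg
    obtain ⟨q, _, rfl⟩ := hg
    exact neg_vec q
  have hkap : ∀ g ∈ ZQ m Q, g + kap m k ∈ ZQ m Q := by
    intro g hg
    unfold ZQ at hg ⊢
    rw [mem_image] at hg ⊢
    obtain ⟨q, hq, rfl⟩ := hg
    refine ⟨q + one k, ?_, ?_⟩
    · simp only [mem_union, mem_insert, mem_singleton, mem_image] at hq ⊢
      rcases hq with ((rfl | rfl) | h) | ⟨a, ha, rfl⟩
      · left; left; right; rw [zero_add]
      · left; left; left; exact one_add_one
      · right; exact ⟨q, h, rfl⟩
      · left; right; rw [add_assoc, one_add_one, add_zero]; exact ha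
    · refine Prod.ext ?_ rfl
      show (0 : ZMod m) = 0 + 0
      rw [add_zero]
  constructor
  · intro g hg
    rw [mem_sdiff] at hg ⊢
    refine ⟨mem_univ _, fun h => hg.2 ?_⟩
    have := hkap _ h
    rwa [add_assoc, kap_add, add_zero] at this
  · intro g hg
    rw [mem_sdiff] at hg ⊢
    refine ⟨mem_univ _, fun h => hg.2 ?_⟩
    have := hneg _ h
    rw [neg_neg] at this
    rw [this]; exact h

/-- The general lifting theorem. -/
theorem lift (Q : Finset (Fin (k + 1) → ZMod 2)) (d : ℕ) (hQ : ∀ i, ∑ q ∈ Q, sg (q i) = d)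
    (hQ0 : (0 : Fin (k + 1) → ZMod 2) ∉ Q)
    (u : Fin (k + 1) → ZMod 2) (hu : u ∉ ({0, one k} ∪ Q ∪ Q.image (fun q => q + one k)))
    (N : ℕ) (hN : 2 * N + (2 * Q.card + 2) ≤ 2 * m * 2 ^ k) :
    Handicap (2 * m * 2 ^ k) (Q.card + 2 * N) d := by
  have hcard : Fintype.card (Gam m (k + 1)) = 2 * m * 2 ^ k := by
    simp [Gam, ZMod.card]
    ring
  have hUc : 2 * N ≤ (Finset.univ \ ZQ m Q).card := by
    rw [card_sdiff_of_subset (subset_univ _), card_univ, hcard]
    have := ZQ_card (m := m) Q
    omega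
  have huU : emb m u ∈ Finset.univ \ ZQ m Q := by
    rw [mem_sdiff]
    refine ⟨mem_univ _, fun h => hu ?_⟩
    unfold ZQ at h
    rw [mem_image] at h
    obtain ⟨q, hq, he⟩ := h
    rwa [emb_inj he] at hq
  obtain ⟨P, hPU, hP, hPc⟩ := inv_subset kap_add kap_ne (UQ_inv Q) huU (neg_vec _) N hUc
  have hPZ : ∀ g ∈ P, g ∉ ZQ m Q := fun g hg => (mem_sdiff.1 (hPU hg)).2
  have hEZ : ∀ g ∈ Q.image (emb m), g ∈ ZQ m Q := by
    intro g hg
    rw [mem_image] at hg
    obtain ⟨q, hq, rfl⟩ := hg
    unfold ZQ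
    rw [mem_image]
    exact ⟨q, by simp only [mem_union]; exact Or.inl (Or.inr hq), rfl⟩
  have hdisj : Disjoint (Q.image (emb m)) P := by
    rw [disjoint_left]
    intro g hg hgP
    exact hPZ g hgP (hEZ g hg)
  refine of_conn d _ (Q.image (emb m) ∪ P) ?_ ?_ ?_ ?_
  · rw [card_union_of_disjoint hdisj, card_image_of_injective _ emb_inj, hPc]
  · rw [mem_union, not_or]
    constructor
    · intro h
      rw [mem_image] at h
      obtain ⟨q, hq, h⟩ := h
      apply hQ0
      have : q = 0 := congrArg Prod.snd h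
      rwa [this] at hq
    · intro h
      apply hPZ _ h
      unfold ZQ
      rw [mem_image]
      exact ⟨0, by simp, rfl⟩
  · intro g hg
    rw [mem_union] at hg ⊢
    rcases hg with h | h
    · left
      have h' := h
      rw [mem_image] at h'
      obtain ⟨q, _, rfl⟩ := h'
      have : -(emb m q) = emb m q := neg_vec q
      rw [this]; exact h
    · exact Or.inr (hP.2 _ h)
  · intro v
    rw [sum_union hdisj]
    have h1 : ∑ g ∈ Q.image (emb m), cen (v + g) = (d : ℤ) * cen v := by
      rw [sum_image (fun a _ b _ hab => emb_inj hab)]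
      exact cen_family v Q d hQ
    have h2 : ∑ g ∈ P, cen (v + g) = 0 := by
      refine Finset.sum_involution (fun g _ => g + kap m k) ?_ ?_ ?_ ?_
      · intro g _
        have : v + (g + kap m k) = (v + g) + kap m k := by rw [add_assoc]
        rw [this]
        have h := cen_kap (v + g)
        unfold kap
        rw [h]; ring
      · intro g _ _ h
        apply kap_ne (m := m) (k := k)
        have : g + kap m k = g + 0 := by rw [add_zero]; exact h
        exact add_left_cancel this
      · intro g hg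
        exact hP.1 g hg
      · intro g _
        show g + kap m k + kap m k = g
        rw [add_assoc, kap_add, add_zero]
    rw [h1, h2, add_zero]

end

end Pool.Agent.Helper119.HC
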