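import Mathlib

open Finset

namespace Pool.Agent.Helper119.HC

section
variable {Γ : Type*} [AddCommGroup Γ] [DecidableEq Γ] {κ : Γ}

/-- closed under negation and under adding `κ` -/
def Inv (κ : Γ) (P : Finset Γ) : Prop := (∀ g ∈ P, g + κ ∈ P) ∧ ∀ g ∈ P, -g ∈ P

/-- the orbit of `u` -/
def Or (κ u : Γ) : Finset Γ := {u, u + κ, -u, -u + κ}

theorem or_inv (hκ : κ + κ = 0) (u : Γ) : Inv κ (Or κ u) := by
  have hn : -κ = κ := neg_eq_of_add_eq_zero_left hκ
  constructor
  · intro g hg
    simp only [Or, mem_insert, mem_singleton] at hg ⊢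
    rcases hg with rfl | rfl | rfl | rfl
    · tauto
    · left; rw [add_assoc, hκ, add_zero]
    · tauto
    · right; right; left; rw [add_assoc, hκ, add_zero]
  · intro g hg
    simp only [Or, mem_insert, mem_singleton] at hg ⊢
    rcases hg with rfl | rfl | rfl | rfl
    · tauto
    · right; right; right; rw [neg_add, hn]
    · left; rw [neg_neg]
    · right; left; rw [neg_add, hn, neg_neg]

theorem or_card (hκ : κ + κ = 0) (h0 : κ ≠ 0) (u : Γ) : (Or κ u).card = 2 ∨ (Or κ u).card = 4 := by
  have h1 : u ≠ u + κ := fun h => h0 (by simpa using h.symm)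
  by_cases h2 : -u = u
  · left
    have : Or κ u = {u, u + κ} := by
      unfold Or; rw [h2]; ext; simp only [mem_insert, mem_singleton]; tauto
    rw [this, card_pair h1]
  by_cases h3 : -u = u + κ
  · left
    have h4 : -u + κ = u := by rw [h3, add_assoc, hκ, add_zero]
    have : Or κ u = {u, u + κ} := by
      unfold Or; rw [h4, h3]; ext; simp only [mem_insert, mem_singleton]; tauto
    rw [this, card_pair h1]
  · right
    have h5 : -u ≠ -u + κ := fun h => h0 (by simpa using h.symm)
    have h6 : u ≠ -u + κ := by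
      intro h
      apply h3
      have : u + κ = -u + κ + κ := by rw [← h]
      rw [add_assoc, hκ, add_zero] at this
      exact this.symm
    have h7 : u + κ ≠ -u + κ := fun h => h2 (add_right_cancel h).symm
    unfold Or
    rw [card_insert_of_notMem, card_insert_of_notMem, card_pair h5]
    · simp only [mem_insert, mem_singleton, not_or]
      exact ⟨fun h => h3 h.symm, h7⟩
    · simp only [mem_insert, mem_singleton, not_or]
      exact ⟨h1, fun h => h2 h.symm, h6⟩

theorem or_sub {V : Finset Γ} (hV : Inv κ V) {u : Γ} (hu : u ∈ V) : Or κ u ⊆ V := by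
  intro g hg
  simp only [Or, mem_insert, mem_singleton] at hg
  rcases hg with rfl | rfl | rfl | rfl
  · exact hu
  · exact hV.1 _ hu
  · exact hV.2 _ hu
  · exact hV.1 _ (hV.2 _ hu)

theorem or_disj (hκ : κ + κ = 0) {P : Finset Γ} (hP : Inv κ P) {u : Γ} (hu : u ∉ P) :
    Disjoint P (Or κ u) := by
  rw [disjoint_right]
  intro g hg hgP
  apply hu
  simp only [Or, mem_insert, mem_singleton] at hg
  rcases hg with rfl | rfl | rfl | rfl
  · exact hgP
  · have := hP.1 _ hgP
    rwa [add_assoc, hκ, add_zero] at this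
  · have := hP.2 _ hgP
    rwa [neg_neg] at this
  · have := hP.2 _ (hP.1 _ hgP)
    rwa [add_assoc, hκ, add_zero, neg_neg] at this

theorem inv_union {P Q : Finset Γ} (hP : Inv κ P) (hQ : Inv κ Q) : Inv κ (P ∪ Q) := by
  constructor
  · intro g hg
    rw [mem_union] at hg ⊢
    rcases hg with h | h
    · exact Or.inl (hP.1 _ h)
    · exact Or.inr (hQ.1 _ h)
  · intro g hg
    rw [mem_union] at hg ⊢
    rcases hg with h | h
    · exact Or.inl (hP.2 _ h)
    · exact Or.inr (hQ.2 _ h)

theorem chain (hκ : κ + κ = 0) (h0 : κ ≠ 0) {V : Finset Γ} (hV : Inv κ V) (N : ℕ)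
    (hN : 2 * N ≤ V.card) :
    ∃ P ⊆ V, Inv κ P ∧ (P.card = 2 * N ∨ P.card + 2 = 2 * N) := by
  induction N with
  | zero => exact ⟨∅, empty_subset _, ⟨by simp, by simp⟩, Or.inl (by simp)⟩
  | succ N ih =>
    obtain ⟨P, hPV, hP, hc⟩ := ih (by omega)
    rcases hc with hc | hc
    · exact ⟨P, hPV, hP, Or.inr (by omega)⟩
    · obtain ⟨u, huV, huP⟩ : ∃ u ∈ V, u ∉ P := by
        by_contra hcon
        push Not at hcon
        have := card_le_card (show V ⊆ P from hcon)
        omega
      have hd := or_disj hκ hP huP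
      refine ⟨P ∪ Or κ u, union_subset hPV (or_sub hV huV), inv_union hP (or_inv hκ u), ?_⟩
      rw [card_union_of_disjoint hd]
      rcases or_card hκ h0 u with h | h <;> omega

/-- There are invariant subsets of every even size. -/
theorem inv_subset (hκ : κ + κ = 0) (h0 : κ ≠ 0) {U : Finset Γ} (hU : Inv κ U) {u : Γ}
    (hu : u ∈ U) (hnu : -u = u) (N : ℕ) (hN : 2 * N ≤ U.card) :
    ∃ P ⊆ U, Inv κ P ∧ P.card = 2 * N := by
  have hn : -κ = κ := neg_eq_of_add_eq_zero_left hκ
  have h1 : u ≠ u + κ := fun h => h0 (by simpa using h.symm)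
  have hO : Or κ u = {u, u + κ} := by
    unfold Or; rw [hnu]; ext; simp only [mem_insert, mem_singleton]; tauto
  have hOc : (Or κ u).card = 2 := by rw [hO, card_pair h1]
  have hOU := or_sub hU hu
  have hcU := card_le_card hOU
  set V := U \ Or κ u with hV
  have hVc : V.card = U.card - 2 := by rw [hV, card_sdiff_of_subset hOU, hOc]
  have hVi : Inv κ V := by
    constructor
    · intro g hg
      rw [hV, mem_sdiff] at hg ⊢
      refine ⟨hU.1 _ hg.1, fun h => hg.2 ?_⟩
      have := (or_inv hκ u).1 _ h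
      rwa [add_assoc, hκ, add_zero] at this
    · intro g hg
      rw [hV, mem_sdiff] at hg ⊢
      refine ⟨hU.2 _ hg.1, fun h => hg.2 ?_⟩
      have := (or_inv hκ u).2 _ h
      rwa [neg_neg] at this
  by_cases hlt : 2 * N ≤ V.card
  · obtain ⟨P, hPV, hP, hc⟩ := chain hκ h0 hVi N hlt
    rcases hc with hc | hc
    · exact ⟨P, hPV.trans sdiff_subset, hP, hc⟩
    · refine ⟨P ∪ Or κ u, union_subset (hPV.trans sdiff_subset) hOU,
        inv_union hP (or_inv hκ u), ?_⟩
      rw [card_union_of_disjoint, hOc, hc]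
      exact (disjoint_sdiff.symm : Disjoint (U \ Or κ u) (Or κ u)).mono_left hPV
  · -- then `2 N > |V|`; use the chain at the top
    obtain ⟨P, hPV, hP, hc⟩ := chain hκ h0 hVi (N - 1) (by omega)
    rcases hc with hc | hc
    · refine ⟨P ∪ Or κ u, union_subset (hPV.trans sdiff_subset) hOU,
        inv_union hP (or_inv hκ u), ?_⟩
      rw [card_union_of_disjoint, hOc, hc]
      · rw [hOc] at hcU; omega
      · exact (disjoint_sdiff.symm : Disjoint (U \ Or κ u) (Or κ u)).mono_left hPV
    · -- `|P| + 2 = 2 (N - 1)`, there is room for one more orbit inside `V`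
      obtain ⟨w, hwV, hwP⟩ : ∃ w ∈ V, w ∉ P := by
        by_contra hcon
        push Not at hcon
        have := card_le_card (show V ⊆ P from hcon)
        omega
      have hd := or_disj hκ hP hwP
      have hsub : P ∪ Or κ w ⊆ V := union_subset hPV (or_sub hVi hwV)
      have hcc : (P ∪ Or κ w).card = P.card + (Or κ w).card := card_union_of_disjoint hd
      have hle := card_le_card hsub
      rcases or_card hκ h0 w with h | h
      · refine ⟨(P ∪ Or κ w) ∪ Or κ u, union_subset (hsub.trans sdiff_subset) hOU,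
          inv_union (inv_union hP (or_inv hκ w)) (or_inv hκ u), ?_⟩
        rw [card_union_of_disjoint, hOc, hcc, h]
        · omega
        · exact (disjoint_sdiff.symm : Disjoint (U \ Or κ u) (Or κ u)).mono_left hsub
      · exact ⟨P ∪ Or κ w, hsub.trans sdiff_subset, inv_union hP (or_inv hκ w), by omega⟩

end

end Pool.Agent.Helper119.HC
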