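import Pool.Agent.Helper119.HC.Inv

open Finset

namespace Pool.Agent.Helper119.HC

/-- the group -/
abbrev Gam (m n : ℕ) := ZMod m × (Fin n → ZMod 2)

/-- sign of a bit -/
def sg (a : ZMod 2) : ℤ := if a = 0 then 1 else -1

theorem sg_add_one (a : ZMod 2) : sg (a + 1) = - sg a := by
  revert a; decide

theorem pow_sum (n : ℕ) : ∑ j : Fin n, (2 : ℤ) ^ (j : ℕ) = 2 ^ n - 1 := by
  induction n with
  | zero => simp
  | succ n ih => rw [Fin.sum_univ_castSucc]; simp only [Fin.val_castSucc, Fin.val_last]; rw [ih]; ring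

section
variable {m k : ℕ}

/-- weights of the coordinates -/
def W (m : ℕ) {k : ℕ} (y : ZMod m) : Fin (k + 1) → ℤ :=
  Fin.cases (2 * (y.val : ℤ) + 1) (fun j => 2 * m * 2 ^ (j : ℕ))

/-- centred label -/
def cen (v : Gam m (k + 1)) : ℤ := ∑ i : Fin (k + 1), W m v.1 i * sg (v.2 i)

def labA (v : Gam m (k + 1)) : ℕ := if v.2 0 = 0 then m + v.1.val else m - 1 - v.1.val

def bit (a : ZMod 2) : Fin 2 := if a = 0 then 1 else 0

def labB (v : Gam m (k + 1)) : Fin (2 ^ k) := finFunctionFinEquiv (fun j : Fin k => bit (v.2 j.succ))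

def lab (v : Gam m (k + 1)) : ℕ := labA v + 2 * m * (labB v : ℕ)

theorem two_bit (a : ZMod 2) : 2 * ((bit a : ℕ) : ℤ) = sg a + 1 := by
  revert a; decide

theorem bit_inj (a b : ZMod 2) (h : bit a = bit b) : a = b := by
  revert a b; decide

variable [NeZero m]

theorem labA_lt (v : Gam m (k + 1)) : labA v < 2 * m := by
  have h := ZMod.val_lt v.1
  unfold labA
  split <;> omega

theorem two_labA (v : Gam m (k + 1)) :
    2 * (labA v : ℤ) = (2 * (v.1.val : ℤ) + 1) * sg (v.2 0) + 2 * m - 1 := by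
  have h := ZMod.val_lt v.1
  unfold labA sg
  split
  · push_cast; ring
  · have : ((m - 1 - v.1.val : ℕ) : ℤ) = (m : ℤ) - 1 - v.1.val := by omega
    rw [this]; ring

omit [NeZero m] in
theorem two_labB (v : Gam m (k + 1)) :
    2 * ((labB v : ℕ) : ℤ) = (∑ j : Fin k, 2 ^ (j : ℕ) * sg (v.2 j.succ)) + 2 ^ k - 1 := by
  unfold labB
  rw [finFunctionFinEquiv_apply]
  push_cast
  rw [Finset.mul_sum]
  have : ∀ j : Fin k, 2 * (((bit (v.2 j.succ) : ℕ) : ℤ) * 2 ^ (j : ℕ)) =
      2 ^ (j : ℕ) * sg (v.2 j.succ) + 2 ^ (j : ℕ) := by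
    intro j
    rw [← mul_assoc, two_bit]; ring
  rw [Finset.sum_congr rfl (fun j _ => this j), Finset.sum_add_distrib, pow_sum]
  ring

theorem two_lab (v : Gam m (k + 1)) : 2 * (lab v : ℤ) = cen v + 2 * m * 2 ^ k - 1 := by
  unfold lab cen
  rw [Fin.sum_univ_succ]
  have hA := two_labA v
  have hB := two_labB v
  simp only [W, Fin.cases_zero, Fin.cases_succ]
  push_cast
  have e : ∑ i : Fin k, 2 * (m : ℤ) * 2 ^ (i : ℕ) * sg (v.2 i.succ) =
      2 * m * ∑ i : Fin k, 2 ^ (i : ℕ) * sg (v.2 i.succ) := by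
    rw [Finset.mul_sum]
    apply Finset.sum_congr rfl
    intro i _
    ring
  rw [e]
  linear_combination hA + 2 * (m : ℤ) * hB

theorem lab_lt (v : Gam m (k + 1)) : lab v < 2 * m * 2 ^ k := by
  have h1 := labA_lt v
  have h2 := (labB v).2
  unfold lab
  have : (labB v : ℕ) + 1 ≤ 2 ^ k := h2
  calc labA v + 2 * m * (labB v : ℕ) < 2 * m + 2 * m * (labB v : ℕ) := by omega
    _ = 2 * m * ((labB v : ℕ) + 1) := by ring
    _ ≤ 2 * m * 2 ^ k := Nat.mul_le_mul_left _ this

theorem lab_inj : Function.Injective (lab : Gam m (k + 1) → ℕ) := by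
  intro v v' h
  have h1 := labA_lt v
  have h1' := labA_lt v'
  unfold lab at h
  have hB : (labB v : ℕ) = labB v' := by
    have e1 : (labA v + 2 * m * (labB v : ℕ)) / (2 * m) = labB v := by
      rw [Nat.add_mul_div_left _ _ (by omega), Nat.div_eq_of_lt h1, zero_add]
    have e2 : (labA v' + 2 * m * (labB v' : ℕ)) / (2 * m) = labB v' := by
      rw [Nat.add_mul_div_left _ _ (by omega), Nat.div_eq_of_lt h1', zero_add]
    rw [← e1, ← e2, h]
  have hA : labA v = labA v' := by rw [hB] at h; omega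
  have hB' := finFunctionFinEquiv.injective (Fin.ext hB)
  have hv := ZMod.val_lt v.1
  have hv' := ZMod.val_lt v'.1
  have h0 : v.2 0 = v'.2 0 ∧ v.1.val = v'.1.val := by
    unfold labA at hA
    have hz : ∀ a : ZMod 2, a = 0 ∨ a = 1 := by decide
    split at hA <;> split at hA
    · rename_i g1 g2
      exact ⟨by rw [g1, g2], by omega⟩
    · omega
    · omega
    · rename_i g1 g2
      refine ⟨?_, by omega⟩
      rcases hz (v.2 0) with e | e
      · exact absurd e g1
      · rcases hz (v'.2 0) with e' | e'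
        · exact absurd e' g2
        · rw [e, e']
  refine Prod.ext (ZMod.val_injective m h0.2) ?_
  funext i
  refine Fin.cases h0.1 (fun j => ?_) i
  exact bit_inj _ _ (congrFun hB' j)

omit [NeZero m] in
/-- adding the all-ones vector changes the sign of the centred label -/
theorem cen_kap (v : Gam m (k + 1)) : cen (v + (0, fun _ => 1)) = - cen v := by
  unfold cen
  rw [← Finset.sum_neg_distrib]
  apply Finset.sum_congr rfl
  intro i _
  show W m (v.1 + 0) i * sg (v.2 i + 1) = _
  rw [add_zero, sg_add_one]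
  ring

omit [NeZero m] in
/-- the unit vectors -/
theorem cen_units (v : Gam m (k + 1)) :
    ∑ j : Fin (k + 1), cen (v + (0, Pi.single j 1)) = ((k : ℤ) - 1) * cen v := by
  unfold cen
  rw [Finset.sum_comm, Finset.mul_sum]
  apply Finset.sum_congr rfl
  intro i _
  have : ∀ j : Fin (k + 1), W m (v + (0, Pi.single j 1)).1 i * sg ((v + (0, Pi.single j 1)).2 i) =
      W m v.1 i * sg (v.2 i) + (if i = j then - 2 * (W m v.1 i * sg (v.2 i)) else 0) := by
    intro j
    show W m (v.1 + 0) i * sg (v.2 i + (Pi.single j 1 : Fin (k + 1) → ZMod 2) i) = _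
    rw [add_zero, Pi.single_apply]
    split
    · rw [sg_add_one]; ring
    · simp
  rw [Finset.sum_congr rfl (fun j _ => this j), Finset.sum_add_distrib, Finset.sum_ite_eq]
  simp
  ring

end

end Pool.Agent.Helper119.HC
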