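import Pool.Agent.Helper119.HC.Lab

open Finset

namespace Pool.Agent.Helper119.HC

/-- `H(p, r, d)`: there is an `r`-regular graph on `p` vertices with a bijective labelling by
`1, ..., p` (the label of `x` is `l x + 1`) such that the weight (sum of the labels of the
neighbours) of the vertex with label `i + 1` exceeds that of the vertex with label `i` by `d`. -/
def Handicap (p r d : ℕ) : Prop :=
  ∃ (G : SimpleGraph (Fin p)) (_ : DecidableRel G.Adj) (l : Fin p ≃ Fin p),
    (∀ v, G.degree v = r) ∧
    ∀ u v : Fin p, (l v : ℕ) = (l u : ℕ) + 1 →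
      ∑ x ∈ G.neighborFinset v, ((l x : ℕ) + 1) = (∑ x ∈ G.neighborFinset u, ((l x : ℕ) + 1)) + d

section
variable {m k : ℕ}

/-- all-ones vector -/
def kap (m k : ℕ) : Gam m (k + 1) := (0, fun _ => 1)

def unit (m : ℕ) {k : ℕ} (j : Fin (k + 1)) : Gam m (k + 1) := (0, Pi.single j 1)

theorem kap_add : kap m k + kap m k = 0 := by
  refine Prod.ext (by simp [kap]) ?_
  funext i
  show (1 : ZMod 2) + 1 = 0
  decide

theorem kap_ne : kap m k ≠ 0 := by
  intro h
  have := congrFun (congrArg Prod.snd h) 0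
  exact absurd this (by show ¬ (1 : ZMod 2) = 0; decide)

theorem neg_vec (q : Fin (k + 1) → ZMod 2) : -((0 : ZMod m), q) = (0, q) := by
  refine Prod.ext (by simp) ?_
  funext i
  exact ZMod.neg_eq_self_mod_two _

theorem unit_inj : Function.Injective (unit m : Fin (k + 1) → Gam m (k + 1)) := by
  intro j j' h
  have := congrFun (congrArg Prod.snd h) j
  simp only [unit, Pi.single_apply] at this
  by_contra hne
  rw [if_pos trivial, if_neg hne] at this
  exact absurd this (by decide)

variable [NeZero m]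

def EE (m k : ℕ) [NeZero m] : Finset (Gam m (k + 1)) := Finset.univ.image (unit m)

def ZZ (m k : ℕ) [NeZero m] : Finset (Gam m (k + 1)) :=
  ({0, kap m k} ∪ EE m k) ∪ (EE m k).image (fun g => g + kap m k)

theorem EE_card : (EE m k).card = k + 1 := by
  unfold EE
  rw [card_image_of_injective _ unit_inj]
  simp

theorem ZZ_card : (ZZ m k).card ≤ 2 * k + 4 := by
  unfold ZZ
  refine (card_union_le _ _).trans ?_
  have h1 := card_union_le ({0, kap m k} : Finset (Gam m (k + 1))) (EE m k)
  have h2 : ({0, kap m k} : Finset (Gam m (k + 1))).card ≤ 2 := card_le_two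
  have h3 := card_image_le (s := EE m k) (f := fun g => g + kap m k)
  rw [EE_card] at h1 h3
  omega

theorem ZZ_kap {g : Gam m (k + 1)} (hg : g ∈ ZZ m k) : g + kap m k ∈ ZZ m k := by
  unfold ZZ at hg ⊢
  simp only [mem_union, mem_insert, mem_singleton, mem_image] at hg ⊢
  rcases hg with ((rfl | rfl) | h) | ⟨a, ha, rfl⟩
  · left; left; right; rw [zero_add]
  · left; left; left; exact kap_add
  · right; exact ⟨g, h, rfl⟩
  · left; right; rw [add_assoc, kap_add, add_zero]; exact ha

theorem ZZ_neg {g : Gam m (k + 1)} (hg : g ∈ ZZ m k) : -g = g := by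
  unfold ZZ at hg
  simp only [mem_union, mem_insert, mem_singleton, mem_image, EE, mem_univ, true_and] at hg
  rcases hg with ((rfl | rfl) | ⟨j, rfl⟩) | ⟨a, ⟨j, rfl⟩, rfl⟩
  · simp
  · exact neg_vec _
  · exact neg_vec _
  · have : unit m j + kap m k = ((0 : ZMod m), (fun i => (Pi.single j 1 : Fin (k + 1) → ZMod 2) i + 1)) := by
      refine Prod.ext (by simp [unit, kap]) rfl
    rw [this]
    exact neg_vec _

theorem UU_inv : Inv (kap m k) (Finset.univ \ ZZ m k) := by
  constructor
  · intro g hg
    rw [mem_sdiff] at hg ⊢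
    refine ⟨mem_univ _, fun h => hg.2 ?_⟩
    have := ZZ_kap h
    rwa [add_assoc, kap_add, add_zero] at this
  · intro g hg
    rw [mem_sdiff] at hg ⊢
    refine ⟨mem_univ _, fun h => hg.2 ?_⟩
    have := ZZ_neg h
    rw [neg_neg] at this
    rw [this]; exact h

/-- a self-inverse element outside `ZZ` -/
def u0 (m k : ℕ) : Gam m (k + 1) := (0, fun i => if (i : ℕ) < 2 then 1 else 0)

theorem u0_mem (hk : 3 ≤ k) : u0 m k ∈ Finset.univ \ ZZ m k := by
  rw [mem_sdiff]
  refine ⟨mem_univ _, ?_⟩
  have h01 : (1 : ZMod 2) ≠ 0 := by decide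
  let i0 : Fin (k + 1) := ⟨0, by omega⟩
  let i1 : Fin (k + 1) := ⟨1, by omega⟩
  let i2 : Fin (k + 1) := ⟨2, by omega⟩
  let i3 : Fin (k + 1) := ⟨3, by omega⟩
  have v0 : (u0 m k).2 i0 = 1 := by simp [u0, i0]
  have v1 : (u0 m k).2 i1 = 1 := by simp [u0, i1]
  have v2 : (u0 m k).2 i2 = 0 := by simp [u0, i2]
  have v3 : (u0 m k).2 i3 = 0 := by simp [u0, i3]
  unfold ZZ
  simp only [mem_union, mem_insert, mem_singleton, mem_image, EE, mem_univ, true_and]
  rintro (((h | h) | ⟨j, h⟩) | ⟨a, ⟨j, rfl⟩, h⟩)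
  · rw [h] at v0
    exact h01 v0.symm
  · rw [h] at v2
    exact h01 v2
  · rw [← h] at v0 v1
    simp only [unit, Pi.single_apply] at v0 v1
    have e0 : i0 = j := by
      by_contra hne
      rw [if_neg hne] at v0
      exact h01 v0.symm
    have e1 : i1 = j := by
      by_contra hne
      rw [if_neg hne] at v1
      exact h01 v1.symm
    have := e0.trans e1.symm
    simp [i0, i1] at this
  · rw [← h] at v2 v3
    have w2 : (Pi.single j 1 : Fin (k + 1) → ZMod 2) i2 + 1 = 0 := v2
    have w3 : (Pi.single j 1 : Fin (k + 1) → ZMod 2) i3 + 1 = 0 := v3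
    rw [Pi.single_apply] at w2 w3
    have e2 : i2 = j := by
      by_contra hne
      rw [if_neg hne] at w2
      exact absurd w2 (by decide)
    have e3 : i3 = j := by
      by_contra hne
      rw [if_neg hne] at w3
      exact absurd w3 (by decide)
    have := e2.trans e3.symm
    simp [i2, i3] at this

/-- The connection set. -/
theorem exists_conn (hk : 3 ≤ k) (N : ℕ) (hN : 2 * N + (2 * k + 4) ≤ 2 * m * 2 ^ k) :
    ∃ C : Finset (Gam m (k + 1)), C.card = k + 1 + 2 * N ∧ (0 : Gam m (k + 1)) ∉ C ∧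
      (∀ g ∈ C, -g ∈ C) ∧
      ∀ v : Gam m (k + 1), ∑ g ∈ C, cen (v + g) = ((k : ℤ) - 1) * cen v := by
  have hcard : Fintype.card (Gam m (k + 1)) = 2 * m * 2 ^ k := by
    simp [Gam, ZMod.card]
    ring
  have hUc : 2 * N ≤ (Finset.univ \ ZZ m k).card := by
    rw [card_sdiff_of_subset (subset_univ _), card_univ, hcard]
    have := ZZ_card (m := m) (k := k)
    omega
  obtain ⟨P, hPU, hP, hPc⟩ := inv_subset kap_add kap_ne UU_inv (u0_mem hk) (neg_vec _) N hUc
  have hPZ : ∀ g ∈ P, g ∉ ZZ m k := fun g hg => (mem_sdiff.1 (hPU hg)).2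
  have hdisj : Disjoint (EE m k) P := by
    rw [disjoint_left]
    intro g hg hgP
    apply hPZ g hgP
    unfold ZZ
    simp only [mem_union]
    exact Or.inl (Or.inr hg)
  refine ⟨EE m k ∪ P, ?_, ?_, ?_, ?_⟩
  · rw [card_union_of_disjoint hdisj, EE_card, hPc]
  · rw [mem_union, not_or]
    constructor
    · intro h
      unfold EE at h
      rw [mem_image] at h
      obtain ⟨j, _, h⟩ := h
      have := congrFun (congrArg Prod.snd h) j
      simp only [unit, Pi.single_eq_same] at this
      exact absurd this (by show ¬ (1 : ZMod 2) = 0; decide)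
    · intro h
      apply hPZ _ h
      unfold ZZ
      simp
  · intro g hg
    rw [mem_union] at hg ⊢
    rcases hg with h | h
    · left
      have : g ∈ ZZ m k := by
        unfold ZZ; simp only [mem_union]; exact Or.inl (Or.inr h)
      rw [ZZ_neg this]; exact h
    · exact Or.inr (hP.2 _ h)
  · intro v
    rw [sum_union hdisj]
    have h1 : ∑ g ∈ EE m k, cen (v + g) = ((k : ℤ) - 1) * cen v := by
      unfold EE
      rw [sum_image (fun a _ b _ hab => unit_inj hab)]
      exact cen_units v
    have h2 : ∑ g ∈ P, cen (v + g) = 0 := by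
      refine Finset.sum_involution (fun g _ => g + kap m k) ?_ ?_ ?_ ?_
      · intro g _
        have : v + (g + kap m k) = (v + g) + kap m k := by rw [add_assoc]
        rw [this]
        have h := cen_kap (v + g)
        unfold kap
        rw [h]; ring
      · intro g _ _ h
        apply kap_ne (m := m) (k := k)
        have : g + kap m k = g + 0 := by rw [add_zero]; exact h
        exact add_left_cancel this
      · intro g hg
        exact hP.1 g hg
      · intro g _
        show g + kap m k + kap m k = g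
        rw [add_assoc, kap_add, add_zero]
    rw [h1, h2, add_zero]

end

theorem main (d m r : ℕ) (hd : 2 ≤ d) (hpar : r % 2 = d % 2) (h1 : d + 2 ≤ r)
    (h2 : r + d + 4 ≤ 2 ^ (d + 2) * m) : Handicap (2 ^ (d + 2) * m) r d := by
  have hm0 : m ≠ 0 := by rintro rfl; simp at h2
  have : NeZero m := ⟨hm0⟩
  have hp : 2 * m * 2 ^ (d + 1) = 2 ^ (d + 2) * m := by ring
  obtain ⟨C, hCc, hC0, hCn, hCs⟩ := exists_conn (m := m) (k := d + 1) (by omega) ((r - d - 2) / 2)
    (by rw [hp]; omega)
  have hcr : C.card = r := by rw [hCc]; omega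
  rw [← hp]
  set p := 2 * m * 2 ^ (d + 1) with hpdef
  have hcard : Fintype.card (Gam m (d + 1 + 1)) = p := by
    simp [Gam, ZMod.card, hpdef]
    ring
  let f : Gam m (d + 1 + 1) → Fin p := fun v => ⟨lab v, lab_lt v⟩
  have hf : Function.Bijective f := by
    rw [Fintype.bijective_iff_injective_and_card]
    refine ⟨fun a b hab => lab_inj (congrArg Fin.val hab), ?_⟩
    rw [hcard, Fintype.card_fin]
  let e : Gam m (d + 1 + 1) ≃ Fin p := Equiv.ofBijective f hf
  have he : ∀ v, (e v : ℕ) = lab v := fun v => rfl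
  let G : SimpleGraph (Fin p) :=
    { Adj := fun i j => e.symm j - e.symm i ∈ C
      symm := ⟨fun i j h => by
        have := hCn _ h
        rwa [neg_sub] at this⟩
      loopless := ⟨fun i h => by
        rw [sub_self] at h
        exact hC0 h⟩ }
  have hdec : DecidableRel G.Adj := fun i j => inferInstanceAs (Decidable (e.symm j - e.symm i ∈ C))
  have hinj : ∀ i : Fin p, Function.Injective (fun g => e (e.symm i + g)) := by
    intro i a b hab
    exact add_left_cancel (e.injective hab)
  have hN : ∀ i : Fin p, G.neighborFinset i = C.map ⟨fun g => e (e.symm i + g), hinj i⟩ := by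
    intro i
    ext j
    rw [SimpleGraph.mem_neighborFinset, mem_map]
    constructor
    · intro h
      refine ⟨e.symm j - e.symm i, h, ?_⟩
      show e (e.symm i + (e.symm j - e.symm i)) = j
      rw [add_sub_cancel, Equiv.apply_symm_apply]
    · rintro ⟨g, hg, rfl⟩
      show e.symm (e (e.symm i + g)) - e.symm i ∈ C
      rw [Equiv.symm_apply_apply, add_sub_cancel_left]
      exact hg
  refine ⟨G, hdec, Equiv.refl _, ?_, ?_⟩
  · intro v
    rw [← SimpleGraph.card_neighborFinset_eq_degree, hN, card_map, hcr]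
  · have hw : ∀ i : Fin p, 2 * ((∑ x ∈ G.neighborFinset i, ((x : ℕ) + 1) : ℕ) : ℤ) =
        (d : ℤ) * cen (e.symm i) + r * ((p : ℤ) + 1) := by
      intro i
      rw [hN, sum_map]
      push_cast
      rw [mul_sum]
      have hterm : ∀ g ∈ C, 2 * (((e (e.symm i + g) : Fin p) : ℕ) + 1 : ℤ) =
          cen (e.symm i + g) + ((p : ℤ) + 1) := by
        intro g _
        rw [he]
        have := two_lab (e.symm i + g)
        have hpz : (p : ℤ) = 2 * m * 2 ^ (d + 1) := by rw [hpdef]; push_cast; ring
        rw [hpz]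
        linarith
      rw [show (∑ g ∈ C, 2 * ((((⟨fun g => e (e.symm i + g), hinj i⟩ : Gam m (d + 1 + 1) ↪ Fin p) g : Fin p) : ℕ) + 1 : ℤ)) =
        ∑ g ∈ C, (cen (e.symm i + g) + ((p : ℤ) + 1)) from Finset.sum_congr rfl hterm]
      rw [sum_add_distrib, hCs, sum_const, hcr, nsmul_eq_mul]
      push_cast
      ring
    intro u v huv
    have huv' : (v : ℕ) = (u : ℕ) + 1 := huv
    have hu := hw u
    have hv := hw v
    have lu := two_lab (e.symm u)
    have lv := two_lab (e.symm v)
    rw [← he, Equiv.apply_symm_apply] at lu lv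
    have hc : cen (e.symm v) = cen (e.symm u) + 2 := by
      have : (v : ℤ) = ((v : ℕ) : ℤ) := rfl
      have h3 : ((v : ℕ) : ℤ) = ((u : ℕ) : ℤ) + 1 := by rw [huv']; push_cast; ring
      linarith
    rw [hc] at hv
    have : 2 * ((∑ x ∈ G.neighborFinset v, ((x : ℕ) + 1) : ℕ) : ℤ) =
        2 * (((∑ x ∈ G.neighborFinset u, ((x : ℕ) + 1)) + d : ℕ) : ℤ) := by
      push_cast at hu hv ⊢
      linarith
    have h4 := mul_left_cancel₀ (two_ne_zero) this
    exact_mod_cast h4

end Pool.Agent.Helper119.HC
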