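import Pool.Agent.Helper119.HC.Tern

open Finset

namespace Pool.Agent.Helper119.HC

section
variable {t k : ℕ}

/-- all-ones vector -/
def hh (t k : ℕ) : Ga t k := (0, fun _ => 1)

theorem hh3 : hh t k + hh t k + hh t k = 0 := by
  refine Prod.ext (by simp [hh]) ?_
  funext i
  show (1 : ZMod 3) + 1 + 1 = 0
  decide

theorem hh_ne : hh t k ≠ 0 := by
  intro h
  have := congrFun (congrArg Prod.snd h) 0
  exact absurd this (by show ¬ (1 : ZMod 3) = 0; decide)

theorem hh_ne2 : hh t k + hh t k ≠ 0 := by
  intro h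
  have := congrFun (congrArg Prod.snd h) 0
  exact absurd this (by show ¬ (1 : ZMod 3) + 1 = 0; decide)

theorem neg_hh : -hh t k = hh t k + hh t k := by
  rw [neg_eq_iff_add_eq_zero, ← add_assoc]
  exact hh3

theorem cn3_sum (w : Ga t k) : cn3 w + cn3 (w + hh t k) + cn3 (w + hh t k + hh t k) = 0 := by
  unfold cn3
  rw [← Finset.sum_add_distrib, ← Finset.sum_add_distrib]
  apply Finset.sum_eq_zero
  intro i _
  have e1 : (w + hh t k).1 = w.1 := by show w.1 + 0 = w.1; rw [add_zero]
  have e2 : (w + hh t k + hh t k).1 = w.1 := by show w.1 + 0 + 0 = w.1; rw [add_zero, add_zero]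
  have e3 : (w + hh t k).2 i = w.2 i + 1 := rfl
  have e4 : (w + hh t k + hh t k).2 i = w.2 i + 2 := by
    show w.2 i + 1 + 1 = w.2 i + 2
    rw [add_assoc]
    rfl
  rw [e1, e2, e3, e4]
  exact ff_sum i w.1 (w.2 i)

def un (t : ℕ) {k : ℕ} (a : Fin (k + 1) × ZMod 3) : Ga t k := (0, Pi.single a.1 a.2)

def S0 (t k : ℕ) : Finset (Ga t k) :=
  ((Finset.univ : Finset (Fin (k + 1))) ×ˢ ({1, 2} : Finset (ZMod 3))).image (un t)

theorem un_inj : Set.InjOn (un t : Fin (k + 1) × ZMod 3 → Ga t k)
    (((Finset.univ : Finset (Fin (k + 1))) ×ˢ ({1, 2} : Finset (ZMod 3)) : Finset _) : Set _) := by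
  rintro ⟨j, a⟩ hja ⟨j', a'⟩ hja' h
  rw [Finset.mem_coe, mem_product] at hja hja'
  have ha : a ≠ 0 := by
    have := hja.2
    simp only [mem_insert, mem_singleton] at this
    rcases this with rfl | rfl <;> decide
  have h1 := congrFun (congrArg Prod.snd h) j
  simp only [un, Pi.single_eq_same, Pi.single_apply] at h1
  by_cases hj : j = j'
  · subst hj
    rw [if_pos rfl] at h1
    rw [h1]
  · rw [if_neg hj] at h1
    exact absurd h1 ha

theorem S0_card : (S0 t k).card = 2 * (k + 1) := by
  unfold S0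
  rw [card_image_of_injOn un_inj, card_product, card_univ, Fintype.card_fin]
  rw [show ({1, 2} : Finset (ZMod 3)).card = 2 from rfl]
  ring

theorem S0_sum (v : Ga t k) : ∑ g ∈ S0 t k, cn3 (v + g) = (2 * (k : ℤ) - 1) * cn3 v := by
  unfold S0
  rw [sum_image un_inj, sum_product]
  have h12 : (1 : ZMod 3) ≠ 2 := by decide
  have e : ∀ j : Fin (k + 1), ∑ a ∈ ({1, 2} : Finset (ZMod 3)), cn3 (v + un t (j, a)) =
      ∑ i : Fin (k + 1), (2 * ff t i v.1 (v.2 i) + if i = j then -3 * ff t i v.1 (v.2 i) else 0) := by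
    intro j
    rw [sum_pair h12]
    unfold cn3
    rw [← Finset.sum_add_distrib]
    apply Finset.sum_congr rfl
    intro i _
    have e1 : ∀ a, (v + un t (j, a)).1 = v.1 := fun a => by show v.1 + 0 = v.1; rw [add_zero]
    have e2 : ∀ a, (v + un t (j, a)).2 i = v.2 i + (if i = j then a else 0) := fun a => by
      show v.2 i + (Pi.single j a : Fin (k + 1) → ZMod 3) i = _
      rw [Pi.single_apply]
    rw [e1, e1, e2, e2]
    have hs := ff_sum i v.1 (v.2 i)
    split_ifs with hij
    · linarith
    · rw [add_zero]; ring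
  rw [Finset.sum_congr rfl (fun j _ => e j), Finset.sum_comm]
  unfold cn3
  rw [Finset.mul_sum]
  apply Finset.sum_congr rfl
  intro i _
  rw [Finset.sum_add_distrib, Finset.sum_ite_eq]
  simp
  ring

/-- invariance -/
def Inv3 (P : Finset (Ga t k)) : Prop :=
  (∀ g ∈ P, g + hh t k ∈ P) ∧ (∀ g ∈ P, -g ∈ P) ∧ ∀ g ∈ P, g.1 ≠ 0

def Or3 (u : Ga t k) : Finset (Ga t k) :=
  {u, u + hh t k, u + hh t k + hh t k, -u, -u + hh t k, -u + hh t k + hh t k}

theorem add3 (g : Ga t k) : g + hh t k + hh t k + hh t k = g := by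
  rw [add_assoc, add_assoc, ← add_assoc (hh t k), hh3, add_zero]

theorem or3_closed (u : Ga t k) : (∀ g ∈ Or3 u, g + hh t k ∈ Or3 u) ∧ ∀ g ∈ Or3 u, -g ∈ Or3 u := by
  constructor
  · intro g hg
    simp only [Or3, mem_insert, mem_singleton] at hg ⊢
    rcases hg with rfl | rfl | rfl | rfl | rfl | rfl
    · tauto
    · tauto
    · left; exact add3 u
    · tauto
    · tauto
    · right; right; right; left; exact add3 _
  · intro g hg
    have n1 : ∀ x : Ga t k, -(x + hh t k) = -x + hh t k + hh t k := by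
      intro x; rw [neg_add, neg_hh, ← add_assoc]
    have n2 : ∀ x : Ga t k, -(x + hh t k + hh t k) = -x + hh t k := by
      intro x; rw [n1, n1, add3]
    simp only [Or3, mem_insert, mem_singleton] at hg ⊢
    rcases hg with rfl | rfl | rfl | rfl | rfl | rfl
    · tauto
    · right; right; right; right; right; exact n1 u
    · right; right; right; right; left; exact n2 u
    · left; rw [neg_neg]
    · right; right; left; rw [n1, neg_neg]
    · right; left; rw [n2, neg_neg]

theorem or3_card {u : Ga t k} (hu : u.1 ≠ 0) : (Or3 u).card = 6 := by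
  have hne : u.1 ≠ -u.1 := by
    intro h
    apply hu
    have h2 : u.1 + u.1 = 0 := by nth_rewrite 2 [h]; rw [add_neg_cancel]
    have h3 : (2 : ZMod (2 * t + 1)) * u.1 = 0 := (two_mul u.1).trans h2
    have hunit : IsUnit (2 : ZMod (2 * t + 1)) := by
      have : IsUnit ((2 : ℕ) : ZMod (2 * t + 1)) := by
        rw [ZMod.isUnit_iff_coprime]
        rw [Nat.coprime_two_left]
        exact ⟨t, rfl⟩
      exact_mod_cast this
    exact (hunit.mul_right_eq_zero).1 h3
  have f1 : ∀ x : Ga t k, (x + hh t k).1 = x.1 := fun x => by show x.1 + 0 = x.1; rw [add_zero]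
  have d1 : ∀ x : Ga t k, x ≠ x + hh t k := fun x h => hh_ne (by simpa using h.symm)
  have d2 : ∀ x : Ga t k, x ≠ x + hh t k + hh t k := fun x h => hh_ne2 (t := t) (k := k) (by
    have : x + (hh t k + hh t k) = x + 0 := by rw [add_zero, ← add_assoc]; exact h.symm
    exact add_left_cancel this)
  have d3 : ∀ x y : Ga t k, x.1 = u.1 → y.1 = -u.1 → x ≠ y := fun x y hx hy h =>
    hne ((hx.symm.trans (congrArg Prod.fst h)).trans hy)
  have nf : (-u).1 = -u.1 := rfl
  unfold Or3
  rw [card_insert_of_notMem, card_insert_of_notMem, card_insert_of_notMem, card_insert_of_notMem,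
    card_pair (d1 _)]
  · simp only [mem_insert, mem_singleton, not_or]
    exact ⟨d1 _, d2 _⟩
  · simp only [mem_insert, mem_singleton, not_or]
    refine ⟨d3 _ _ ?_ nf, d3 _ _ ?_ ?_, d3 _ _ ?_ ?_⟩ <;> simp only [f1, nf]
  · simp only [mem_insert, mem_singleton, not_or]
    refine ⟨d1 _, d3 _ _ ?_ nf, d3 _ _ ?_ ?_, d3 _ _ ?_ ?_⟩ <;> simp only [f1, nf]
  · simp only [mem_insert, mem_singleton, not_or]
    refine ⟨d1 _, d2 _, d3 _ _ rfl nf, d3 _ _ rfl ?_, d3 _ _ rfl ?_⟩ <;> simp only [f1, nf]

theorem chain3 (N : ℕ) (hN : 6 * N ≤ 2 * t * 3 ^ (k + 1)) :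
    ∃ P : Finset (Ga t k), Inv3 P ∧ P.card = 6 * N := by
  induction N with
  | zero => exact ⟨∅, ⟨by simp, by simp, by simp⟩, by simp⟩
  | succ N ih =>
    obtain ⟨P, hP, hc⟩ := ih (by omega)
    obtain ⟨u, hu, huP⟩ : ∃ u : Ga t k, u.1 ≠ 0 ∧ u ∉ P := by
      by_contra hcon
      push Not at hcon
      have hsub : (({0}ᶜ : Finset (ZMod (2 * t + 1))) ×ˢ
          (Finset.univ : Finset (Fin (k + 1) → ZMod 3))) ⊆ P := by
        rintro g hg
        rw [mem_product] at hg
        apply hcon g
        have := hg.1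
        rw [mem_compl, mem_singleton] at this
        exact this
      have := card_le_card hsub
      rw [card_product, card_compl, card_singleton, ZMod.card, card_univ, Fintype.card_fun,
        Fintype.card_fin, ZMod.card, hc] at this
      have e : 2 * t + 1 - 1 = 2 * t := by omega
      rw [e] at this
      omega
    obtain ⟨c1, c2⟩ := or3_closed u
    refine ⟨P ∪ Or3 u, ⟨?_, ?_, ?_⟩, ?_⟩
    · intro g hg
      rw [mem_union] at hg ⊢
      rcases hg with h | h
      · exact Or.inl (hP.1 g h)
      · exact Or.inr (c1 g h)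
    · intro g hg
      rw [mem_union] at hg ⊢
      rcases hg with h | h
      · exact Or.inl (hP.2.1 g h)
      · exact Or.inr (c2 g h)
    · intro g hg
      rw [mem_union] at hg
      rcases hg with h | h
      · exact hP.2.2 g h
      · have hnu : -u.1 ≠ 0 := neg_ne_zero.2 hu
        simp only [Or3, mem_insert, mem_singleton] at h
        have f1 : ∀ x : Ga t k, (x + hh t k).1 = x.1 := fun x => by
          show x.1 + 0 = x.1; rw [add_zero]
        rcases h with rfl | rfl | rfl | rfl | rfl | rfl
        · exact hu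
        · rw [f1]; exact hu
        · rw [f1, f1]; exact hu
        · exact hnu
        · rw [f1]; exact hnu
        · rw [f1, f1]; exact hnu
    · have hd : Disjoint P (Or3 u) := by
        rw [disjoint_right]
        intro g hg hgP
        apply huP
        have n1 : ∀ x : Ga t k, x ∈ P → x + hh t k ∈ P := hP.1
        simp only [Or3, mem_insert, mem_singleton] at hg
        have key : ∀ x : Ga t k, (x ∈ P ∨ x + hh t k ∈ P ∨ x + hh t k + hh t k ∈ P) → x ∈ P := by
          intro x hx
          rcases hx with h | h | h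
          · exact h
          · have := n1 _ (n1 _ h); rwa [add3] at this
          · have := n1 _ h; rwa [add3] at this
        rcases hg with rfl | rfl | rfl | rfl | rfl | rfl
        · exact hgP
        · exact key u (Or.inr (Or.inl hgP))
        · exact key u (Or.inr (Or.inr hgP))
        · have := hP.2.1 _ hgP; rwa [neg_neg] at this
        · have := hP.2.1 _ (key (-u) (Or.inr (Or.inl hgP))); rwa [neg_neg] at this
        · have := hP.2.1 _ (key (-u) (Or.inr (Or.inr hgP))); rwa [neg_neg] at this
      rw [card_union_of_disjoint hd, hc, or3_card hu]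
      ring

theorem main3 (t k N : ℕ) (hk : 1 ≤ k) (hN : 6 * N ≤ 2 * t * 3 ^ (k + 1)) :
    Handicap (3 ^ (k + 1) * (2 * t + 1)) (2 * (k + 1) + 6 * N) (2 * k - 1) := by
  obtain ⟨P, hP, hc⟩ := chain3 (t := t) (k := k) N hN
  have hcard : Fintype.card (Ga t k) = 3 ^ (k + 1) * (2 * t + 1) := by
    simp [Ga, ZMod.card]
    ring
  have hS1 : ∀ g ∈ S0 t k, g.1 = 0 := by
    intro g hg
    unfold S0 at hg
    rw [mem_image] at hg
    obtain ⟨a, _, rfl⟩ := hg
    rfl
  have hdisj : Disjoint (S0 t k) P := by
    rw [disjoint_left]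
    intro g hg hgP
    exact hP.2.2 g hgP (hS1 g hg)
  refine of_conn_gen hcard lb3 cn3 lb3_lt lb3_inj two_lb3 _ _ (S0 t k ∪ P) ?_ ?_ ?_ ?_
  · rw [card_union_of_disjoint hdisj, S0_card, hc]
  · rw [mem_union, not_or]
    constructor
    · intro h
      unfold S0 at h
      rw [mem_image] at h
      obtain ⟨⟨j, a⟩, ha, h⟩ := h
      rw [mem_product] at ha
      have h1 := congrFun (congrArg Prod.snd h) j
      simp only [un, Pi.single_eq_same] at h1
      have h2 := ha.2
      simp only [mem_insert, mem_singleton] at h2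
      have h3 : a = 0 := h1
      rcases h2 with rfl | rfl
      · exact absurd h3 (by decide)
      · exact absurd h3 (by decide)
    · intro h
      exact hP.2.2 _ h rfl
  · intro g hg
    rw [mem_union] at hg ⊢
    rcases hg with h | h
    · left
      unfold S0 at h ⊢
      rw [mem_image] at h ⊢
      obtain ⟨⟨j, a⟩, ha, rfl⟩ := h
      rw [mem_product] at ha
      refine ⟨(j, -a), ?_, ?_⟩
      · rw [mem_product]
        refine ⟨ha.1, ?_⟩
        have h2 := ha.2
        simp only [mem_insert, mem_singleton] at h2 ⊢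
        rcases h2 with rfl | rfl
        · right; decide
        · left; decide
      · refine Prod.ext ?_ ?_
        · show (0 : ZMod (2 * t + 1)) = -0
          rw [neg_zero]
        · show (Pi.single j (-a) : Fin (k + 1) → ZMod 3) = -(Pi.single j a)
          rw [Pi.single_neg]
    · exact Or.inr (hP.2.1 g h)
  · intro v
    rw [sum_union hdisj, S0_sum]
    have s1 : ∀ F : Ga t k → ℤ, ∑ g ∈ P, F (g + hh t k) = ∑ g ∈ P, F g := by
      intro F
      apply Finset.sum_bij (fun g _ => g + hh t k)
      · intro g hg; exact hP.1 g hg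
      · intro a _ b _ h; exact add_right_cancel h
      · intro b hb
        exact ⟨b + hh t k + hh t k, hP.1 _ (hP.1 _ hb), add3 b⟩
      · intro g _; rfl
    have h0 : ∑ g ∈ P, cn3 (v + g) = 0 := by
      have a1 := s1 (fun g => cn3 (v + g))
      have a2 := s1 (fun g => cn3 (v + (g + hh t k)))
      have a3 : ∑ g ∈ P, (cn3 (v + g) + cn3 (v + (g + hh t k)) +
          cn3 (v + (g + hh t k + hh t k))) = 0 := by
        apply Finset.sum_eq_zero
        intro g _
        have := cn3_sum (v + g)
        rw [add_assoc v g (hh t k), add_assoc v (g + hh t k) (hh t k)] at this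
        exact this
      rw [Finset.sum_add_distrib, Finset.sum_add_distrib] at a3
      linarith
    rw [h0, add_zero]
    congr 1
    have : ((2 * k - 1 : ℕ) : ℤ) = 2 * (k : ℤ) - 1 := by omega
    rw [this]

end

end Pool.Agent.Helper119.HC
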