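import Pool.Agent.Helper119.HC.Main

open Finset

namespace Pool.Agent.Helper119.HC

theorem nec {p r d : ℕ} (hp : p % 4 = 2) (h : Handicap p r d) : r % 4 = (3 * d) % 4 := by
  obtain ⟨G, hdec, l, hdeg, hw⟩ := h
  have hp0 : 0 < p := by omega
  set w : Fin p → ℕ := fun v => ∑ x ∈ G.neighborFinset v, ((l x : ℕ) + 1) with hwdef
  set w0 := w (l.symm ⟨0, hp0⟩) with hw0
  have hlin : ∀ i (hi : i < p), w (l.symm ⟨i, hi⟩) = w0 + d * i := by
    intro i
    induction i with
    | zero => intro hi; simp [hw0]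
    | succ i ih =>
      intro hi
      have hi' : i < p := by omega
      have := hw (l.symm ⟨i, hi'⟩) (l.symm ⟨i + 1, hi⟩) (by simp)
      have e : w (l.symm ⟨i + 1, hi⟩) = w (l.symm ⟨i, hi'⟩) + d := this
      rw [e, ih hi']; ring
  have hlin' : ∀ i : Fin p, w (l.symm i) = w0 + d * (i : ℕ) := fun i => hlin i i.2
  -- first sum
  have s1 : ∑ v, w v = r * ∑ v, ((l v : ℕ) + 1) := by
    have e1 : ∀ v, w v = ∑ x, if G.Adj v x then ((l x : ℕ) + 1) else 0 := by
      intro v
      rw [hwdef]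
      simp only
      rw [← Finset.sum_filter]
      congr 1
      ext x
      simp
    rw [Finset.sum_congr rfl (fun v _ => e1 v), Finset.sum_comm, Finset.mul_sum]
    apply Finset.sum_congr rfl
    intro x _
    rw [← Finset.sum_filter, Finset.sum_const, smul_eq_mul]
    congr 1
    rw [← hdeg x, ← SimpleGraph.card_neighborFinset_eq_degree]
    congr 1
    ext v
    simp [G.adj_comm]
  have s2 : ∑ v, w v = ∑ i ∈ range p, (w0 + d * i) := by
    rw [← Equiv.sum_comp l.symm w, Finset.sum_congr rfl (fun i _ => hlin' i)]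
    exact Fin.sum_univ_eq_sum_range (fun i => w0 + d * i) p
  have s3 : ∑ v, ((l v : ℕ) + 1) = ∑ i ∈ range p, (i + 1) := by
    rw [Equiv.sum_comp l (fun i : Fin p => ((i : ℕ) + 1))]
    exact Fin.sum_univ_eq_sum_range (fun i => i + 1) p
  have g1 : (∑ i ∈ range p, i) * 2 = p * (p - 1) := Finset.sum_range_id_mul_two p
  have key : 2 * w0 + d * (p - 1) = r * (p + 1) := by
    rw [s2, s3] at s1
    rw [Finset.sum_add_distrib, Finset.sum_add_distrib, ← Finset.mul_sum] at s1
    simp only [Finset.sum_const, Finset.card_range, smul_eq_mul, mul_one] at s1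
    obtain ⟨q, rfl⟩ : ∃ q, p = q + 1 := ⟨p - 1, by omega⟩
    simp only [Nat.add_sub_cancel] at g1 ⊢
    have : (q + 1) * (2 * w0 + d * q) = (q + 1) * (r * (q + 1 + 1)) := by
      have e2 : (q + 1) * (2 * w0 + d * q) = 2 * ((q + 1) * w0 + d * ∑ i ∈ range (q + 1), i) := by
        have : 2 * (d * ∑ i ∈ range (q + 1), i) = d * ((q + 1) * q) := by rw [← g1]; ring
        rw [mul_add 2, this]; ring
      rw [e2, s1]
      have : 2 * (r * (∑ i ∈ range (q + 1), i + (q + 1))) =
          r * ((∑ i ∈ range (q + 1), i) * 2 + 2 * (q + 1)) := by ring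
      rw [this, g1]; ring
    exact Nat.eq_of_mul_eq_mul_left (by omega) this
  -- second sum, modulo 2
  have par : ((∑ v, ((l v : ℕ) + 1) * w v : ℕ) : ZMod 2) = 0 := by
    push_cast
    have e1 : ∀ v, (((l v : ℕ) : ZMod 2) + 1) * (w v : ZMod 2) =
        ∑ x, if G.Adj v x then (((l v : ℕ) : ZMod 2) + 1) * (((l x : ℕ) : ZMod 2) + 1) else 0 := by
      intro v
      rw [hwdef]
      simp only
      push_cast
      rw [Finset.mul_sum, ← Finset.sum_filter]
      congr 1
      ext x
      simp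
    rw [Finset.sum_congr rfl (fun v _ => e1 v), ← Finset.sum_product']
    refine Finset.sum_involution (fun a _ => (a.2, a.1)) ?_ ?_ ?_ ?_
    · rintro ⟨a, b⟩ _
      simp only
      by_cases hab : G.Adj a b
      · rw [if_pos hab, if_pos hab.symm]
        have : ∀ z : ZMod 2, z + z = 0 := by decide
        rw [mul_comm (((l b : ℕ) : ZMod 2) + 1)]
        exact this _
      · rw [if_neg hab, if_neg (fun h => hab h.symm)]
        simp
    · rintro ⟨a, b⟩ _ hne heq
      simp only [Prod.mk.injEq] at heq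
      apply hne
      simp only
      rw [heq.1]
      simp
    · simp
    · simp
  have s4 : ∑ v, ((l v : ℕ) + 1) * w v = ∑ i ∈ range p, (i + 1) * (w0 + d * i) := by
    rw [← Equiv.sum_comp l.symm (fun v => ((l v : ℕ) + 1) * w v)]
    rw [Finset.sum_congr rfl (fun i _ => by rw [hlin' i, Equiv.apply_symm_apply])]
    exact Fin.sum_univ_eq_sum_range (fun i => (i + 1) * (w0 + d * i)) p
  rw [s4] at par
  have hw0e : (w0 : ZMod 2) = 0 := by
    have hterm : ∀ i ∈ range p, (((i + 1) * (w0 + d * i) : ℕ) : ZMod 2) =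
        (w0 : ZMod 2) * ((i : ZMod 2) + 1) := by
      intro i _
      push_cast
      have : ∀ a b c : ZMod 2, (a + 1) * (b + c * a) = b * (a + 1) := by decide
      exact this _ _ _
    rw [Nat.cast_sum, Finset.sum_congr rfl hterm, ← Finset.mul_sum] at par
    have hodd : (∑ i ∈ range p, ((i : ZMod 2) + 1)) = 1 := by
      have e : (∑ i ∈ range p, ((i : ZMod 2) + 1)) = ((∑ i ∈ range p, (i + 1) : ℕ) : ZMod 2) := by
        push_cast; rfl
      rw [e]
      have e2 : (∑ i ∈ range p, (i + 1)) % 2 = 1 := by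
        rw [Finset.sum_add_distrib]
        simp only [Finset.sum_const, Finset.card_range, smul_eq_mul, mul_one]
        obtain ⟨q, rfl⟩ : ∃ q, p = 4 * q + 2 := ⟨p / 4, by omega⟩
        have : (4 * q + 2) * (4 * q + 2 - 1) = 2 * ((2 * q + 1) * (4 * q + 1)) := by
          rw [show 4 * q + 2 - 1 = 4 * q + 1 by omega]; ring
        rw [this] at g1
        have h5 : ∑ i ∈ range (4 * q + 2), i = (2 * q + 1) * (4 * q + 1) := by omega
        rw [h5]
        have : (2 * q + 1) * (4 * q + 1) + (4 * q + 2) = 2 * (4 * q * q + 5 * q + 1) + 1 := by ring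
        rw [this]; omega
      rw [← ZMod.natCast_mod, e2]
      rfl
    rwa [hodd, mul_one] at par
  have hw0d : 2 ∣ w0 := (ZMod.natCast_eq_zero_iff w0 2).1 hw0e
  obtain ⟨t, ht⟩ := hw0d
  rw [ht] at key
  obtain ⟨q, rfl⟩ : ∃ q, p = 4 * q + 2 := ⟨p / 4, by omega⟩
  have h1 : 4 * q + 2 - 1 = 4 * q + 1 := by omega
  rw [h1] at key
  have e1 : d * (4 * q + 1) = 4 * (d * q) + d := by ring
  have e2 : r * (4 * q + 2 + 1) = 4 * (r * q) + 3 * r := by ring
  rw [e1, e2] at key
  omega

end Pool.Agent.Helper119.HC
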