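import Pool.Agent.Helper119.HC.Gen

open Finset

namespace Pool.Agent.Helper119.HC

section
variable {k : ℕ}

/-- number of ones -/
def wt (q : Fin (k + 1) → ZMod 2) : ℕ := (Finset.univ.filter (fun i => q i = 1)).card

def rot (s : Fin (k + 1)) (q : Fin (k + 1) → ZMod 2) : Fin (k + 1) → ZMod 2 := fun i => q (i + s)

theorem rot_rot (s t : Fin (k + 1)) (q : Fin (k + 1) → ZMod 2) :
    rot s (rot t q) = rot (s + t) q := by
  funext i
  unfold rot
  rw [add_assoc]

theorem rot_zero (q : Fin (k + 1) → ZMod 2) : rot 0 q = q := by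
  funext i
  unfold rot
  rw [add_zero]

theorem wt_rot (s : Fin (k + 1)) (q : Fin (k + 1) → ZMod 2) : wt (rot s q) = wt q := by
  unfold wt rot
  apply Finset.card_bij (fun i _ => i + s)
  · intro i hi
    rw [mem_filter] at hi ⊢
    exact ⟨mem_univ _, hi.2⟩
  · intro a _ b _ h
    exact add_right_cancel h
  · intro b hb
    rw [mem_filter] at hb
    refine ⟨b - s, ?_, by rw [sub_add_cancel]⟩
    rw [mem_filter, sub_add_cancel]
    exact ⟨mem_univ _, hb.2⟩

theorem wt_compl (q : Fin (k + 1) → ZMod 2) : wt (q + one k) + wt q = k + 1 := by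
  unfold wt
  have h := Finset.card_filter_add_card_filter_not (s := (Finset.univ : Finset (Fin (k + 1))))
    (fun i => q i = 1)
  rw [card_univ, Fintype.card_fin] at h
  have e : (Finset.univ.filter (fun i => (q + one k) i = 1)) =
      Finset.univ.filter (fun i => ¬ q i = 1) := by
    apply filter_congr
    intro i _
    show q i + 1 = 1 ↔ ¬ q i = 1
    have : ∀ a : ZMod 2, a + 1 = 1 ↔ ¬ a = 1 := by decide
    exact this _
  rw [e]
  omega

/-- rotations act freely on vectors of weight `t` when `k + 1 = 2 t + 1` -/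
theorem rot_free {t : ℕ} (hk : k = 2 * t) (q : Fin (k + 1) → ZMod 2) (hq : wt q = t)
    (s : Fin (k + 1)) (h : rot s q = q) : s = 0 := by
  subst hk
  have hfix : ∀ i, q (i + s) = q i := fun i => congrFun h i
  have h1 : ∑ i : Fin (2 * t + 1), (if q i = 1 then i + s else 0) =
      ∑ i : Fin (2 * t + 1), (if q i = 1 then i else 0) := by
    rw [← Equiv.sum_comp (Equiv.addRight s) (fun i => if q i = 1 then i else 0)]
    apply Finset.sum_congr rfl
    intro i _
    show (if q i = 1 then i + s else 0) = (if q (i + s) = 1 then i + s else 0)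
    by_cases hi : q i = 1
    · have hi' : q (i + s) = 1 := by rw [hfix i]; exact hi
      rw [if_pos hi, if_pos hi']
    · have hi' : ¬ q (i + s) = 1 := by rw [hfix i]; exact hi
      rw [if_neg hi, if_neg hi']
  have h2 : ∑ i : Fin (2 * t + 1), (if q i = 1 then i + s else 0) =
      ∑ i : Fin (2 * t + 1), (if q i = 1 then i else 0) + t • s := by
    have : ∀ i : Fin (2 * t + 1), (if q i = 1 then i + s else 0) =
        (if q i = 1 then i else 0) + (if q i = 1 then s else 0) := by
      intro i; split <;> simp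
    rw [Finset.sum_congr rfl (fun i _ => this i), Finset.sum_add_distrib]
    congr 1
    rw [← Finset.sum_filter, Finset.sum_const]
    unfold wt at hq
    rw [hq]
  have h3 : t • s = 0 := by
    rw [h1] at h2
    have : (∑ i : Fin (2 * t + 1), (if q i = 1 then i else 0)) + 0 =
      (∑ i : Fin (2 * t + 1), (if q i = 1 then i else 0)) + t • s := by rw [add_zero]; exact h2
    exact (add_left_cancel this).symm
  have h4 : (2 * t + 1) • s = 0 := by
    have := card_nsmul_eq_zero (x := s)
    rwa [Fintype.card_fin] at this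
  rw [add_nsmul, one_nsmul, mul_nsmul', h3, smul_zero, zero_add] at h4
  exact h4

theorem fam {t : ℕ} (hk : k = 2 * t) (d : ℕ)
    (hd : (k + 1) * d ≤ (Finset.univ.filter (fun q : Fin (k + 1) → ZMod 2 => wt q = t)).card) :
    ∃ Q : Finset (Fin (k + 1) → ZMod 2), Q.card = (k + 1) * d ∧ (∀ q ∈ Q, wt q = t) ∧
      ∀ q ∈ Q, ∀ s, rot s q ∈ Q := by
  induction d with
  | zero => exact ⟨∅, by simp, by simp, by simp⟩
  | succ d ih =>
    have e : (k + 1) * (d + 1) = (k + 1) * d + (k + 1) := by ring
    obtain ⟨Q, hc, hw, hr⟩ := ih (by omega)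
    obtain ⟨q, hq, hqQ⟩ : ∃ q ∈ Finset.univ.filter (fun q : Fin (k + 1) → ZMod 2 => wt q = t),
        q ∉ Q := by
      by_contra hcon
      push Not at hcon
      have := card_le_card (show Finset.univ.filter
        (fun q : Fin (k + 1) → ZMod 2 => wt q = t) ⊆ Q from hcon)
      omega
    rw [mem_filter] at hq
    have hinj : Function.Injective (fun s : Fin (k + 1) => rot s q) := by
      intro a b hab
      simp only at hab
      have h1 : rot (a - b) q = q := by
        have := congrArg (rot (-b)) hab
        rw [rot_rot, rot_rot, neg_add_cancel, rot_zero] at this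
        rw [← this]
        congr 1
        abel
      have := rot_free hk q hq.2 _ h1
      exact sub_eq_zero.1 this
    refine ⟨Q ∪ Finset.univ.image (fun s => rot s q), ?_, ?_, ?_⟩
    · rw [card_union_of_disjoint, hc, card_image_of_injective _ hinj, card_univ, Fintype.card_fin, e]
      rw [disjoint_right]
      intro a ha haQ
      rw [mem_image] at ha
      obtain ⟨s, _, rfl⟩ := ha
      apply hqQ
      have := hr _ haQ (-s)
      rwa [rot_rot, neg_add_cancel, rot_zero] at this
    · intro a ha
      rw [mem_union] at ha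
      rcases ha with ha | ha
      · exact hw a ha
      · rw [mem_image] at ha
        obtain ⟨s, _, rfl⟩ := ha
        rw [wt_rot]; exact hq.2
    · intro a ha s
      rw [mem_union] at ha ⊢
      rcases ha with ha | ha
      · exact Or.inl (hr a ha s)
      · right
        rw [mem_image] at ha ⊢
        obtain ⟨s', _, rfl⟩ := ha
        exact ⟨s + s', mem_univ _, by rw [rot_rot]⟩

theorem sum_sg (q : Fin (k + 1) → ZMod 2) : ∑ i, sg (q i) = (k : ℤ) + 1 - 2 * wt q := by
  unfold wt
  have : ∀ i, sg (q i) = 1 - 2 * (if q i = 1 then 1 else 0) := by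
    intro i
    have : ∀ a : ZMod 2, sg a = 1 - 2 * (if a = 1 then 1 else 0) := by decide
    exact this _
  rw [Finset.sum_congr rfl (fun i _ => this i), Finset.sum_sub_distrib, ← Finset.mul_sum,
    ← Finset.sum_filter]
  simp

theorem balance {t : ℕ} (hk : k = 2 * t) (d : ℕ) (Q : Finset (Fin (k + 1) → ZMod 2))
    (hc : Q.card = (k + 1) * d) (hw : ∀ q ∈ Q, wt q = t) (hr : ∀ q ∈ Q, ∀ s, rot s q ∈ Q)
    (i : Fin (k + 1)) : ∑ q ∈ Q, sg (q i) = (d : ℤ) := by
  have hconst : ∀ j : Fin (k + 1), ∑ q ∈ Q, sg (q j) = ∑ q ∈ Q, sg (q 0) := by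
    intro j
    apply Finset.sum_bij (fun q _ => rot j q)
    · intro q hq; exact hr q hq j
    · intro a _ b _ hab
      have := congrArg (rot (-j)) hab
      rwa [rot_rot, rot_rot, neg_add_cancel, rot_zero, rot_zero] at this
    · intro b hb
      exact ⟨rot (-j) b, hr b hb _, by rw [rot_rot, add_neg_cancel, rot_zero]⟩
    · intro q _
      unfold rot
      rw [zero_add]
  have htot : ∑ j : Fin (k + 1), ∑ q ∈ Q, sg (q j) = ((k + 1) * d : ℤ) := by
    rw [Finset.sum_comm]
    have : ∀ q ∈ Q, ∑ j, sg (q j) = 1 := by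
      intro q hq
      rw [sum_sg, hw q hq, hk]
      push_cast; ring
    rw [Finset.sum_congr rfl this, Finset.sum_const, hc]
    simp
  rw [Finset.sum_congr rfl (fun j _ => hconst j), Finset.sum_const, Finset.card_univ,
    Fintype.card_fin, nsmul_eq_mul] at htot
  rw [hconst i]
  push_cast at htot
  have hk1 : ((k : ℤ) + 1) ≠ 0 := by positivity
  exact mul_left_cancel₀ hk1 htot

theorem card_wt (t : ℕ) :
    (Finset.univ.filter (fun q : Fin (k + 1) → ZMod 2 => wt q = t)).card = (k + 1).choose t := by
  have h := Finset.card_powersetCard t (Finset.univ : Finset (Fin (k + 1)))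
  rw [Finset.card_univ, Fintype.card_fin] at h
  rw [← h]
  apply Finset.card_bij (fun q _ => Finset.univ.filter (fun i => q i = 1))
  · intro q hq
    rw [mem_filter] at hq
    rw [mem_powersetCard]
    exact ⟨subset_univ _, hq.2⟩
  · intro a _ b _ hab
    funext i
    have h := Finset.ext_iff.1 hab i
    simp only [mem_filter, mem_univ, true_and] at h
    have : ∀ x y : ZMod 2, (x = 1 ↔ y = 1) → x = y := by decide
    exact this _ _ h
  · intro S hS
    rw [mem_powersetCard] at hS
    refine ⟨fun i => if i ∈ S then 1 else 0, ?_, ?_⟩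
    · rw [mem_filter]
      refine ⟨mem_univ _, ?_⟩
      unfold wt
      rw [← hS.2]
      congr 1
      ext i
      simp
    · ext i
      simp

end

/-- the Catalan range -/
theorem main2 (t d m r : ℕ) (ht : 2 ≤ t) (hd : (2 * t + 1) * d ≤ (2 * t + 1).choose t)
    (hpar : r % 2 = d % 2) (h1 : (2 * t + 1) * d ≤ r)
    (h2 : r + (2 * t + 1) * d + 2 ≤ 2 ^ (2 * t + 1) * m) : Handicap (2 ^ (2 * t + 1) * m) r d := by
  have hm0 : m ≠ 0 := by rintro rfl; simp at h2
  have : NeZero m := ⟨hm0⟩
  have hp : 2 * m * 2 ^ (2 * t) = 2 ^ (2 * t + 1) * m := by ring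
  obtain ⟨Q, hc, hw, hr⟩ := fam (k := 2 * t) (t := t) rfl d (by rw [card_wt]; exact hd)
  have hbal := balance (k := 2 * t) (t := t) rfl d Q hc hw hr
  have hparQ : ((2 * t + 1) * d) % 2 = d % 2 := by
    have : (2 * t + 1) * d = 2 * (t * d) + d := by ring
    rw [this]; omega
  have w0 : wt (0 : Fin (2 * t + 1) → ZMod 2) = 0 := by
    unfold wt
    rw [Finset.card_eq_zero, Finset.filter_eq_empty_iff]
    intro i _
    show ¬ (0 : ZMod 2) = 1
    decide
  have hu1 : wt (Pi.single 0 1 : Fin (2 * t + 1) → ZMod 2) = 1 := by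
    unfold wt
    rw [Finset.card_eq_one]
    refine ⟨0, ?_⟩
    ext i
    simp only [mem_filter, mem_univ, true_and, mem_singleton, Pi.single_apply]
    constructor
    · intro h
      by_contra hne
      rw [if_neg hne] at h
      exact absurd h (by decide)
    · intro h
      rw [if_pos h]
  have hone : wt (one (2 * t)) = 2 * t + 1 := by
    have := wt_compl (k := 2 * t) 0
    rw [zero_add, w0] at this
    simpa using this
  have hfin := lift (m := m) (k := 2 * t) Q d hbal
    (fun h => by have := hw _ h; rw [w0] at this; omega)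
    (Pi.single 0 1) (by
      simp only [mem_union, mem_insert, mem_singleton, mem_image]
      rintro (((h | h) | h) | ⟨q, hq, h⟩)
      · rw [h, w0] at hu1; omega
      · rw [h, hone] at hu1; omega
      · have := hw _ h
        rw [hu1] at this; omega
      · have a1 := wt_compl (k := 2 * t) q
        rw [h, hu1, hw q hq] at a1
        omega)
    ((r - (2 * t + 1) * d) / 2) (by rw [hc, hp]; omega)
  have e : Q.card + 2 * ((r - (2 * t + 1) * d) / 2) = r := by rw [hc]; omega
  rw [e, hp] at hfin
  exact hfin

end Pool.Agent.Helper119.HC
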