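import Pool.Agent.Helper119.HC.Rot

open Finset

namespace Pool.Agent.Helper119.HC

/-- Cayley graph on a labelled abelian group. -/
theorem of_conn_gen {Γ : Type*} [AddCommGroup Γ] [Fintype Γ] [DecidableEq Γ] {p : ℕ}
    (hcard : Fintype.card Γ = p) (lb : Γ → ℕ) (cn : Γ → ℤ) (hlt : ∀ v, lb v < p)
    (hlinj : Function.Injective lb) (h2 : ∀ v, 2 * (lb v : ℤ) = cn v + p - 1)
    (d r : ℕ) (C : Finset Γ) (hcr : C.card = r)
    (hC0 : (0 : Γ) ∉ C) (hCn : ∀ g ∈ C, -g ∈ C)
    (hCs : ∀ v : Γ, ∑ g ∈ C, cn (v + g) = (d : ℤ) * cn v) :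
    Handicap p r d := by
  let f : Γ → Fin p := fun v => ⟨lb v, hlt v⟩
  have hf : Function.Bijective f := by
    rw [Fintype.bijective_iff_injective_and_card]
    refine ⟨fun a b hab => hlinj (congrArg Fin.val hab), ?_⟩
    rw [hcard, Fintype.card_fin]
  let e : Γ ≃ Fin p := Equiv.ofBijective f hf
  have he : ∀ v, (e v : ℕ) = lb v := fun v => rfl
  let G : SimpleGraph (Fin p) :=
    { Adj := fun i j => e.symm j - e.symm i ∈ C
      symm := ⟨fun i j h => by
        have := hCn _ h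
        rwa [neg_sub] at this⟩
      loopless := ⟨fun i h => by
        rw [sub_self] at h
        exact hC0 h⟩ }
  have hdec : DecidableRel G.Adj := fun i j => inferInstanceAs (Decidable (e.symm j - e.symm i ∈ C))
  have hinj : ∀ i : Fin p, Function.Injective (fun g => e (e.symm i + g)) := by
    intro i a b hab
    exact add_left_cancel (e.injective hab)
  have hN : ∀ i : Fin p, G.neighborFinset i = C.map ⟨fun g => e (e.symm i + g), hinj i⟩ := by
    intro i
    ext j
    rw [SimpleGraph.mem_neighborFinset, mem_map]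
    constructor
    · intro h
      refine ⟨e.symm j - e.symm i, h, ?_⟩
      show e (e.symm i + (e.symm j - e.symm i)) = j
      rw [add_sub_cancel, Equiv.apply_symm_apply]
    · rintro ⟨g, hg, rfl⟩
      show e.symm (e (e.symm i + g)) - e.symm i ∈ C
      rw [Equiv.symm_apply_apply, add_sub_cancel_left]
      exact hg
  refine ⟨G, hdec, Equiv.refl _, ?_, ?_⟩
  · intro v
    rw [← SimpleGraph.card_neighborFinset_eq_degree, hN, card_map, hcr]
  · have hw : ∀ i : Fin p, 2 * ((∑ x ∈ G.neighborFinset i, ((x : ℕ) + 1) : ℕ) : ℤ) =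
        (d : ℤ) * cn (e.symm i) + r * ((p : ℤ) + 1) := by
      intro i
      rw [hN, sum_map]
      push_cast
      rw [mul_sum]
      have hterm : ∀ g ∈ C, 2 * (((e (e.symm i + g) : Fin p) : ℕ) + 1 : ℤ) =
          cn (e.symm i + g) + ((p : ℤ) + 1) := by
        intro g _
        rw [he]
        have := h2 (e.symm i + g)
        linarith
      rw [show (∑ g ∈ C, 2 * ((((⟨fun g => e (e.symm i + g), hinj i⟩ : Γ ↪ Fin p) g : Fin p) : ℕ) + 1 : ℤ)) =
        ∑ g ∈ C, (cn (e.symm i + g) + ((p : ℤ) + 1)) from Finset.sum_congr rfl hterm]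
      rw [sum_add_distrib, hCs, sum_const, hcr, nsmul_eq_mul]
    intro u v huv
    have huv' : (v : ℕ) = (u : ℕ) + 1 := huv
    have hu := hw u
    have hv := hw v
    have lu := h2 (e.symm u)
    have lv := h2 (e.symm v)
    rw [← he, Equiv.apply_symm_apply] at lu lv
    have hc : cn (e.symm v) = cn (e.symm u) + 2 := by
      have h3 : ((v : ℕ) : ℤ) = ((u : ℕ) : ℤ) + 1 := by rw [huv']; push_cast; ring
      linarith
    rw [hc] at hv
    have : 2 * ((∑ x ∈ G.neighborFinset v, ((x : ℕ) + 1) : ℕ) : ℤ) =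
        2 * (((∑ x ∈ G.neighborFinset u, ((x : ℕ) + 1)) + d : ℕ) : ℤ) := by
      push_cast at hu hv ⊢
      linarith
    have h4 := mul_left_cancel₀ (two_ne_zero) this
    exact_mod_cast h4

section
variable {t k : ℕ}

/-- the three rows -/
def row (t : ℕ) (x : ZMod 3) (y : ℕ) : ℕ :=
  if x = 0 then y
  else if x = 1 then (if y ≤ t then y + t else y - t - 1)
  else (if y ≤ t then 2 * t - 2 * y else 4 * t + 1 - 2 * y)

abbrev Ga (t k : ℕ) := ZMod (2 * t + 1) × (Fin (k + 1) → ZMod 3)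

theorem row_lt (x : ZMod 3) {y : ℕ} (hy : y < 2 * t + 1) : row t x y < 2 * t + 1 := by
  unfold row
  split_ifs <;> omega

theorem row_inj (x : ZMod 3) {y y' : ℕ} (hy : y < 2 * t + 1) (hy' : y' < 2 * t + 1)
    (h : row t x y = row t x y') : y = y' := by
  unfold row at h
  split_ifs at h <;> omega

/-- values of the coordinates -/
def ff (t : ℕ) {k : ℕ} (i : Fin (k + 1)) (y : ZMod (2 * t + 1)) (x : ZMod 3) : ℤ :=
  Fin.cases (2 * (((2 * t + 1) * x.val + row t x y.val : ℕ) : ℤ) - (3 * (2 * t + 1) - 1))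
    (fun j : Fin k => 3 * (2 * t + 1) * 3 ^ (j : ℕ) * (2 * (x.val : ℤ) - 2)) i

theorem three_sum (g : ZMod 3 → ℤ) (x : ZMod 3) : g x + g (x + 1) + g (x + 2) = g 0 + g 1 + g 2 := by
  have hx : x = 0 ∨ x = 1 ∨ x = 2 := by revert x; decide
  rcases hx with rfl | rfl | rfl
  · rw [zero_add, zero_add]
  · rw [show (1 : ZMod 3) + 1 = 2 by decide, show (1 : ZMod 3) + 2 = 0 by decide]; ring
  · rw [show (2 : ZMod 3) + 1 = 0 by decide, show (2 : ZMod 3) + 2 = 1 by decide]; ring

theorem ff_sum (i : Fin (k + 1)) (y : ZMod (2 * t + 1)) (x : ZMod 3) :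
    ff t i y x + ff t i y (x + 1) + ff t i y (x + 2) = 0 := by
  rw [three_sum (ff t i y) x]
  have v0 : (0 : ZMod 3).val = 0 := rfl
  have v1 : (1 : ZMod 3).val = 1 := rfl
  have v2 : (2 : ZMod 3).val = 2 := rfl
  have hy := ZMod.val_lt y
  refine Fin.cases ?_ (fun j => ?_) i
  · simp only [ff, Fin.cases_zero, v0, v1, v2]
    have r0 : row t 0 y.val = y.val := by simp [row]
    have r1 : row t 1 y.val = if y.val ≤ t then y.val + t else y.val - t - 1 := by
      unfold row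
      rw [if_neg (by decide), if_pos rfl]
    have r2 : row t 2 y.val = if y.val ≤ t then 2 * t - 2 * y.val else 4 * t + 1 - 2 * y.val := by
      unfold row
      rw [if_neg (by decide), if_neg (by decide)]
    rw [r0, r1, r2]
    split_ifs <;> omega
  · simp only [ff, Fin.cases_succ, v0, v1, v2]
    push_cast
    ring

def cn3 (v : Ga t k) : ℤ := ∑ i : Fin (k + 1), ff t i v.1 (v.2 i)

def tB (v : Ga t k) : Fin (3 ^ k) :=
  finFunctionFinEquiv (fun j : Fin k => (⟨(v.2 j.succ).val, ZMod.val_lt _⟩ : Fin 3))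

def tA (v : Ga t k) : ℕ := (2 * t + 1) * (v.2 0).val + row t (v.2 0) v.1.val

def lb3 (v : Ga t k) : ℕ := tA v + 3 * (2 * t + 1) * (tB v : ℕ)

theorem tA_lt (v : Ga t k) : tA v < 3 * (2 * t + 1) := by
  have h := row_lt (t := t) (v.2 0) (ZMod.val_lt v.1)
  have h3 := ZMod.val_lt (v.2 0)
  unfold tA
  have : (2 * t + 1) * (v.2 0).val ≤ (2 * t + 1) * 2 := Nat.mul_le_mul_left _ (by omega)
  omega

theorem lb3_lt (v : Ga t k) : lb3 v < 3 ^ (k + 1) * (2 * t + 1) := by
  have h1 := tA_lt v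
  have h2 := (tB v).2
  unfold lb3
  have : (tB v : ℕ) + 1 ≤ 3 ^ k := h2
  calc tA v + 3 * (2 * t + 1) * (tB v : ℕ) < 3 * (2 * t + 1) + 3 * (2 * t + 1) * (tB v : ℕ) := by
        omega
    _ = 3 * (2 * t + 1) * ((tB v : ℕ) + 1) := by ring
    _ ≤ 3 * (2 * t + 1) * 3 ^ k := Nat.mul_le_mul_left _ this
    _ = 3 ^ (k + 1) * (2 * t + 1) := by ring

theorem lb3_inj : Function.Injective (lb3 : Ga t k → ℕ) := by
  intro v v' h
  have h1 := tA_lt v
  have h1' := tA_lt v'
  unfold lb3 at h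
  have hB : (tB v : ℕ) = tB v' := by
    have e1 : (tA v + 3 * (2 * t + 1) * (tB v : ℕ)) / (3 * (2 * t + 1)) = tB v := by
      rw [Nat.add_mul_div_left _ _ (by omega), Nat.div_eq_of_lt h1, zero_add]
    have e2 : (tA v' + 3 * (2 * t + 1) * (tB v' : ℕ)) / (3 * (2 * t + 1)) = tB v' := by
      rw [Nat.add_mul_div_left _ _ (by omega), Nat.div_eq_of_lt h1', zero_add]
    rw [← e1, ← e2, h]
  have hA : tA v = tA v' := by rw [hB] at h; omega
  have hB' := finFunctionFinEquiv.injective (Fin.ext hB)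
  have hy := ZMod.val_lt v.1
  have hy' := ZMod.val_lt v'.1
  have hr := row_lt (t := t) (v.2 0) hy
  have hr' := row_lt (t := t) (v'.2 0) hy'
  unfold tA at hA
  have hx : (v.2 0).val = (v'.2 0).val := by
    have e1 : ((2 * t + 1) * (v.2 0).val + row t (v.2 0) v.1.val) / (2 * t + 1) = (v.2 0).val := by
      rw [Nat.mul_add_div (by omega), Nat.div_eq_of_lt hr, add_zero]
    have e2 : ((2 * t + 1) * (v'.2 0).val + row t (v'.2 0) v'.1.val) / (2 * t + 1) =
        (v'.2 0).val := by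
      rw [Nat.mul_add_div (by omega), Nat.div_eq_of_lt hr', add_zero]
    rw [← e1, ← e2, hA]
  have hx0 : v.2 0 = v'.2 0 := ZMod.val_injective 3 hx
  rw [hx0] at hA
  have hrow : row t (v'.2 0) v.1.val = row t (v'.2 0) v'.1.val := by omega
  have hyy := row_inj _ hy hy' hrow
  refine Prod.ext (ZMod.val_injective _ hyy) ?_
  funext i
  refine Fin.cases hx0 (fun j => ?_) i
  exact ZMod.val_injective 3 (congrArg Fin.val (congrFun hB' j))

theorem two_lb3 (v : Ga t k) :
    2 * (lb3 v : ℤ) = cn3 v + ((3 ^ (k + 1) * (2 * t + 1) : ℕ) : ℤ) - 1 := by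
  unfold lb3 cn3
  rw [Fin.sum_univ_succ]
  have hB : ((tB v : ℕ) : ℤ) = ∑ j : Fin k, ((v.2 j.succ).val : ℤ) * 3 ^ (j : ℕ) := by
    unfold tB
    rw [finFunctionFinEquiv_apply]
    push_cast
    rfl
  have hp : ∀ n : ℕ, ∑ j : Fin n, (2 : ℤ) * 3 ^ (j : ℕ) = 3 ^ n - 1 := by
    intro n
    induction n with
    | zero => simp
    | succ n ih => rw [Fin.sum_univ_castSucc]; simp only [Fin.val_castSucc, Fin.val_last]; rw [ih]; ring
  have e1 : ∑ j : Fin k, ff t j.succ v.1 (v.2 j.succ) =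
      3 * (2 * (t : ℤ) + 1) * (2 * ((tB v : ℕ) : ℤ) - (3 ^ k - 1)) := by
    rw [hB, ← hp k, Finset.mul_sum, ← Finset.sum_sub_distrib, Finset.mul_sum]
    apply Finset.sum_congr rfl
    intro j _
    simp only [ff, Fin.cases_succ]
    ring
  have e0 : ff t (0 : Fin (k + 1)) v.1 (v.2 0) = 2 * (tA v : ℤ) - (3 * (2 * (t : ℤ) + 1) - 1) := by
    simp only [ff, Fin.cases_zero, tA]
  rw [e0, e1]
  push_cast
  ring

end

end Pool.Agent.Helper119.HC
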